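import Pool.Agent.RM7.S6c
import Pool.Agent.Helper44.HO.NullCount

/-!
# Structured families, part d: minimal pairs and the final count
-/

set_option autoImplicit false
set_option linter.unusedSectionVars false

open scoped BigOperators
open Classical Module

namespace RMH

/-- structured families: for some subspace `H` the points can be paired modulo `H`, except for less
than `n - κ dim H` of them -/
def Str {ι V : Type} [Fintype ι] [AddCommGroup V] [Module (ZMod 2) V] (κ : ℕ) (x : ι → V) : Prop :=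
  ∃ (H : Submodule (ZMod 2) V) (σ : ι → ι), (∀ i, σ (σ i) = i) ∧ (∀ i, x (σ i) - x i ∈ H) ∧
    (Finset.univ.filter (fun i => σ i = i)).card + κ * finrank (ZMod 2) H < Fintype.card ι

section fixed

variable {A B C : Type} [AddCommGroup A] [Module (ZMod 2) A] [Fintype A]
  [AddCommGroup B] [Module (ZMod 2) B] [Fintype B] [AddCommGroup C] [Module (ZMod 2) C] [Fintype C]
  {n : ℕ}

/-- the count for a fixed pairing -/
theorem xs_count (t a m1 m2 κ k τ γ : ℕ) (hB : Fintype.card B = 2 ^ m1)
    (hC : Fintype.card C = 2 ^ m2) (hκ : κ ≤ 4 * (a - t).choose t) (hτ : 8 * τ ≤ κ * k)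
    (hγ1 : γ + a ≤ m1) (hγ2 : γ ≤ m2) (σ : Fin n → Fin n) (hσ : ∀ i, σ (σ i) = i) :
    cnt (fun x : Fin n → A × (B × C) => XS t σ κ k x) * 2 ^ (γ * τ)
      ≤ Fintype.card A ^ n * cnt (fun g : {i // σ i = i} → B × C =>
        Function.Injective g ∧ Null (t + 2) g) *
        (2 ^ ((m1 + m2) * Fintype.card {i // i < σ i}) *
        2 ^ (Fintype.card {i // i < σ i} + 1)) := by
  set M := 2 ^ ((m1 + m2) * Fintype.card {i // i < σ i}) *
        2 ^ (Fintype.card {i // i < σ i} + 1) with hM
  set G := Finset.univ.filter (fun g : {i // σ i = i} → B × C =>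
        Function.Injective g ∧ Null (t + 2) g) with hG
  set S := Finset.univ.filter (fun x : Fin n → A × (B × C) => XS t σ κ k x) with hS
  have h1 : S.card = ∑ q ∈ (Finset.univ : Finset (Fin n → A)) ×ˢ G,
      (S.filter (fun x => ((fun i => (x i).1), (fun u : {i // σ i = i} => (x u).2)) = q)).card := by
    refine Finset.card_eq_sum_card_fiberwise (fun x hx => ?_)
    have hx1 := (Finset.mem_filter.1 (Finset.mem_coe.1 hx)).2
    rw [Finset.mem_coe, Finset.mem_product]
    refine ⟨Finset.mem_univ _, Finset.mem_filter.2 ⟨Finset.mem_univ _, ?_, hx1.null hσ⟩⟩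
    intro u u' huu
    exact Subtype.ext (hx1.2.2.1 u u' u.2 u'.2 huu)
  rw [cnt_eq, cnt_eq, h1, Finset.sum_mul]
  have h2 : ∀ q ∈ (Finset.univ : Finset (Fin n → A)) ×ˢ G,
      (S.filter (fun x => ((fun i => (x i).1), (fun u : {i // σ i = i} => (x u).2)) = q)).card
        * 2 ^ (γ * τ) ≤ M := by
    intro q _
    have h3 := fiber_count (A := A) (B := B) (C := C) t a m1 m2 κ k τ γ hB hC hκ hτ hγ1 hγ2 σ hσ
      q.1 q.2
    rw [cnt_eq] at h3
    refine le_trans (Nat.mul_le_mul_right _ (Finset.card_le_card ?_)) h3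
    intro x hx
    rw [Finset.mem_filter, hS, Finset.mem_filter] at hx
    rw [Finset.mem_filter]
    refine ⟨Finset.mem_univ _, hx.1.2, ?_, ?_⟩
    · rw [← hx.2]
    · rw [← hx.2]
  refine (Finset.sum_le_sum h2).trans (le_of_eq ?_)
  rw [Finset.sum_const, Finset.card_product, Finset.card_univ, Fintype.card_fun, Fintype.card_fin,
    smul_eq_mul]

end fixed

/-- number of injective null families -/
noncomputable def NI (r e m : ℕ) : ℕ :=
  cnt (fun y : Fin e → (Fin m → ZMod 2) => Function.Injective y ∧ Null r y)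

/-- transfer of injective null families -/
lemma NI_transfer {ι V : Type} [Fintype ι] [AddCommGroup V] [Module (ZMod 2) V] [Fintype V]
    (r e m : ℕ) (hι : Fintype.card ι = e) (hV : Fintype.card V = 2 ^ m) :
    cnt (fun y : ι → V => Function.Injective y ∧ Null r y) ≤ NI r e m := by
  have hV1 : Fintype.card (Fin m → ZMod 2) = 2 ^ m := by
    rw [Fintype.card_fun, ZMod.card, Fintype.card_fin]
  obtain ⟨f⟩ := equiv_of_card V (Fin m → ZMod 2) m hV hV1
  have q : Fin e ≃ ι := (Fintype.equivFinOfCardEq hι).symm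
  unfold NI
  refine cnt_le_of_inj (fun y i => f (y (q i))) ?_ ?_
  · rintro y ⟨hy1, hy2⟩
    refine ⟨f.injective.comp (hy1.comp q.injective), ?_⟩
    intro p hp
    have h1 := ((null_equiv f r y).2 hy2) p hp
    rw [← h1]
    exact Equiv.sum_comp q (fun i => p (f (y i)))
  · intro y y' _ _ h
    funext i
    have h1 := congrFun h (q.symm i)
    simp only [Equiv.apply_symm_apply] at h1
    exact f.injective h1

section main

variable {V : Type} [AddCommGroup V] [Module (ZMod 2) V] [Fintype V] {n : ℕ}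

/-- coordinates adapted to a subspace -/
lemma exists_coord (H : Submodule (ZMod 2) V) (m k m1 m2 : ℕ) (hV : Fintype.card V = 2 ^ m)
    (hH : finrank (ZMod 2) H = k) (hm : k + m1 + m2 = m) :
    ∃ e : V ≃ₗ[ZMod 2] (Fin k → ZMod 2) × ((Fin m1 → ZMod 2) × (Fin m2 → ZMod 2)),
      ∀ v, v ∈ H ↔ (e v).2 = 0 := by
  obtain ⟨H', hH'⟩ := Submodule.exists_isCompl H
  have hVf : finrank (ZMod 2) V = m := by
    have h1 := Module.card_eq_pow_finrank (K := ZMod 2) (V := V)
    rw [hV, ZMod.card] at h1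
    exact (Nat.pow_right_injective (le_refl 2) h1).symm
  have h1 := Submodule.finrank_add_eq_of_isCompl hH'
  have e1 : Nonempty (H ≃ₗ[ZMod 2] (Fin k → ZMod 2)) := by
    apply FiniteDimensional.nonempty_linearEquiv_of_finrank_eq
    rw [hH, finrank_fintype_fun_eq_card, Fintype.card_fin]
  have e2 : Nonempty (H' ≃ₗ[ZMod 2] ((Fin m1 → ZMod 2) × (Fin m2 → ZMod 2))) := by
    apply FiniteDimensional.nonempty_linearEquiv_of_finrank_eq
    rw [finrank_prod, finrank_fintype_fun_eq_card, finrank_fintype_fun_eq_card, Fintype.card_fin,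
      Fintype.card_fin]
    omega
  refine ⟨(Submodule.prodEquivOfIsCompl H H' hH').symm.trans
    (LinearEquiv.prodCongr e1.some e2.some), fun v => ?_⟩
  show _ ↔ e2.some ((Submodule.prodEquivOfIsCompl H H' hH').symm v).2 = 0
  rw [LinearEquiv.map_eq_zero_iff, Submodule.prodEquivOfIsCompl_symm_apply_snd_eq_zero]

/-- the cost of a pair -/
noncomputable def cost (κ : ℕ) (p : Submodule (ZMod 2) V × (Fin n → Fin n)) : ℕ :=
  (Finset.univ.filter (fun i => p.2 i = i)).card + κ * finrank (ZMod 2) p.1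

/-- admissible pairs -/
def Adm (x : Fin n → V) (p : Submodule (ZMod 2) V × (Fin n → Fin n)) : Prop :=
  (∀ i, p.2 (p.2 i) = i) ∧ ∀ i, x (p.2 i) - x i ∈ p.1

/-- a minimal pair of a structured family -/
lemma exists_min {κ : ℕ} {x : Fin n → V} (hs : Str κ x) :
    ∃ p : Submodule (ZMod 2) V × (Fin n → Fin n), Adm x p ∧ cost κ p < n ∧
      ∀ p', Adm x p' → cost κ p ≤ cost κ p' := by
  obtain ⟨H, σ, h1, h2, h3⟩ := hs
  rw [Fintype.card_fin] at h3
  have hex : ∃ c, ∃ p : Submodule (ZMod 2) V × (Fin n → Fin n), Adm x p ∧ cost κ p = c :=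
    ⟨_, (H, σ), ⟨h1, h2⟩, rfl⟩
  obtain ⟨p, hp, hpc⟩ := Nat.find_spec hex
  refine ⟨p, hp, ?_, ?_⟩
  · rw [hpc]
    have h4 : cost κ (H, σ) < n := by
      unfold cost
      convert h3
    exact lt_of_le_of_lt (Nat.find_min' hex ⟨(H, σ), ⟨h1, h2⟩, rfl⟩) h4
  · intro p' hp'
    rw [hpc]
    exact Nat.find_min' hex ⟨p', hp', rfl⟩

/-- unpaired points are in different classes -/
lemma min_inj {κ : ℕ} {x : Fin n → V} {p : Submodule (ZMod 2) V × (Fin n → Fin n)}
    (hp : Adm x p) (hmin : ∀ p', Adm x p' → cost κ p ≤ cost κ p') {u u' : Fin n}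
    (hu : p.2 u = u) (hu' : p.2 u' = u') (h : x u' - x u ∈ p.1) : u = u' := by
  by_contra hne
  set σ' : Fin n → Fin n := fun i => if i = u then u' else if i = u' then u else p.2 i with hσ'
  have hadm : Adm x (p.1, σ') := by
    refine ⟨fun i => ?_, fun i => ?_⟩
    · show σ' (σ' i) = i
      simp only [hσ']
      by_cases h1 : i = u
      · rw [if_pos h1, if_neg (fun h => hne h.symm), if_pos rfl, h1]
      · rw [if_neg h1]
        by_cases h2 : i = u'
        · rw [if_pos h2, if_pos rfl, h2]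
        · rw [if_neg h2]
          have h3 : p.2 i ≠ u := fun h3 => h1 (by rw [← hp.1 i, h3, hu])
          have h4 : p.2 i ≠ u' := fun h4 => h2 (by rw [← hp.1 i, h4, hu'])
          rw [if_neg h3, if_neg h4, hp.1]
    · show x (σ' i) - x i ∈ p.1
      simp only [hσ']
      by_cases h1 : i = u
      · rw [if_pos h1, h1]
        exact h
      · rw [if_neg h1]
        by_cases h2 : i = u'
        · rw [if_pos h2, h2, ← neg_sub]
          exact p.1.neg_mem h
        · rw [if_neg h2]
          exact hp.2 i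
  have h1 := hmin _ hadm
  unfold cost at h1
  have h2 : (Finset.univ.filter (fun i => σ' i = i)).card <
      (Finset.univ.filter (fun i => p.2 i = i)).card := by
    apply Finset.card_lt_card
    rw [Finset.ssubset_iff_of_subset]
    · refine ⟨u, Finset.mem_filter.2 ⟨Finset.mem_univ _, hu⟩, ?_⟩
      rw [Finset.mem_filter]
      rintro ⟨-, h3⟩
      simp only [hσ', if_true] at h3
      exact hne h3.symm
    · intro i hi
      rw [Finset.mem_filter] at hi ⊢
      refine ⟨Finset.mem_univ _, ?_⟩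
      have h3 := hi.2
      simp only [hσ'] at h3
      by_cases h4 : i = u
      · rw [h4]; exact hu
      · rw [if_neg h4] at h3
        by_cases h5 : i = u'
        · rw [h5]; exact hu'
        · rw [if_neg h5] at h3
          exact h3
  simp only at h1
  omega

/-- the cost of smaller subspaces -/
lemma min_sub {κ : ℕ} {x : Fin n → V} {p : Submodule (ZMod 2) V × (Fin n → Fin n)}
    (hp : Adm x p) (hmin : ∀ p', Adm x p' → cost κ p ≤ cost κ p') (H' : Submodule (ZMod 2) V) :
    κ * finrank (ZMod 2) p.1 ≤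
      (Finset.univ.filter (fun i => p.2 i ≠ i ∧ x (p.2 i) - x i ∉ H')).card
        + κ * finrank (ZMod 2) H' := by
  set σ' : Fin n → Fin n := fun i => if x (p.2 i) - x i ∈ H' then p.2 i else i with hσ'
  have hadm : Adm x (H', σ') := by
    refine ⟨fun i => ?_, fun i => ?_⟩
    · show σ' (σ' i) = i
      simp only [hσ']
      by_cases h1 : x (p.2 i) - x i ∈ H'
      · rw [if_pos h1, hp.1, if_pos, ]
        rw [← neg_sub]
        exact H'.neg_mem h1
      · rw [if_neg h1, if_neg h1]
    · show x (σ' i) - x i ∈ H'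
      simp only [hσ']
      by_cases h1 : x (p.2 i) - x i ∈ H'
      · rw [if_pos h1]; exact h1
      · rw [if_neg h1, sub_self]; exact H'.zero_mem
  have h1 := hmin _ hadm
  unfold cost at h1
  simp only at h1
  have h2 : (Finset.univ.filter (fun i => σ' i = i)).card ≤
      (Finset.univ.filter (fun i => p.2 i = i)).card +
      (Finset.univ.filter (fun i => p.2 i ≠ i ∧ x (p.2 i) - x i ∉ H')).card := by
    refine le_trans (Finset.card_le_card ?_) (Finset.card_union_le _ _)
    intro i hi
    rw [Finset.mem_filter] at hi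
    rw [Finset.mem_union, Finset.mem_filter, Finset.mem_filter]
    by_cases h3 : p.2 i = i
    · exact Or.inl ⟨Finset.mem_univ _, h3⟩
    · refine Or.inr ⟨Finset.mem_univ _, h3, fun h4 => ?_⟩
      have h5 := hi.2
      simp only [hσ'] at h5
      rw [if_pos h4] at h5
      exact h3 h5
  omega

/-- the families attached to a basis and a pairing -/
def ZS {k : ℕ} (t κ : ℕ) (b : Fin k → V) (σ : Fin n → Fin n) (x : Fin n → V) : Prop :=
  LinearIndependent (ZMod 2) b ∧ Null (t + 2) x ∧
    Adm x (Submodule.span (ZMod 2) (Set.range b), σ) ∧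
    (Finset.univ.filter (fun i => σ i = i)).card + κ * k < n ∧
    ∀ p', Adm x p' → cost κ (Submodule.span (ZMod 2) (Set.range b), σ) ≤ cost κ p'

lemma exists_ZS {t κ : ℕ} {x : Fin n → V} (hi : Function.Injective x) (hn : Null (t + 2) x)
    (hs : Str κ x) : ∃ k, 1 ≤ k ∧ κ * k < n ∧ ∃ (b : Fin k → V) (σ : Fin n → Fin n),
      ZS t κ b σ x := by
  obtain ⟨⟨H, σ⟩, hadm, hlt, hmin⟩ := exists_min hs
  set bH := Module.finBasis (ZMod 2) H with hbH
  have hspan : Submodule.span (ZMod 2) (Set.range (fun i => (bH i : V))) = H := by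
    have h1 : Set.range (fun i => (bH i : V)) = H.subtype '' Set.range bH := by
      ext v
      simp
    rw [h1, Submodule.span_image, bH.span_eq, Submodule.map_top, Submodule.range_subtype]
  have hli : LinearIndependent (ZMod 2) (fun i => (bH i : V)) :=
    bH.linearIndependent.map' H.subtype (Submodule.ker_subtype H)
  have hcost : cost κ (H, σ) = (Finset.univ.filter (fun i => σ i = i)).card +
      κ * finrank (ZMod 2) H := rfl
  refine ⟨finrank (ZMod 2) H, ?_, ?_, fun i => (bH i : V), σ, hli, hn, ?_, ?_, ?_⟩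
  · by_contra hcon
    have h0 : finrank (ZMod 2) H = 0 := by omega
    have hbot : H = ⊥ := Submodule.finrank_eq_zero.1 h0
    have h1 : Finset.univ.filter (fun i => σ i = i) = Finset.univ := by
      rw [Finset.filter_eq_self]
      intro i _
      have h2 : x (σ i) - x i ∈ H := hadm.2 i
      rw [hbot, Submodule.mem_bot, sub_eq_zero] at h2
      exact hi h2
    rw [hcost, h1, Finset.card_univ, Fintype.card_fin] at hlt
    omega
  · rw [hcost] at hlt
    omega
  · rw [hspan]; exact hadm
  · rw [hcost] at hlt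
    exact hlt
  · rw [hspan]; exact hmin

/-- the count for a basis and a pairing, in adapted coordinates -/
theorem zs_count_aux {A B C : Type} [AddCommGroup A] [Module (ZMod 2) A] [Fintype A]
    [AddCommGroup B] [Module (ZMod 2) B] [Fintype B] [AddCommGroup C] [Module (ZMod 2) C]
    [Fintype C] (t a m1 m2 κ k τ γ : ℕ) (cA : Fintype.card A = 2 ^ k)
    (cB : Fintype.card B = 2 ^ m1) (cC : Fintype.card C = 2 ^ m2)
    (hκ : κ ≤ 4 * (a - t).choose t) (hτ : 8 * τ ≤ κ * k)
    (hγ1 : γ + a ≤ m1) (hγ2 : γ ≤ m2) (b : Fin k → V) (σ : Fin n → Fin n)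
    (hσ : ∀ i, σ (σ i) = i)
    (hcard : (Finset.univ.filter (fun i => σ i = i)).card + κ * k < n)
    (hHk : finrank (ZMod 2) ↥(Submodule.span (ZMod 2) (Set.range b)) = k)
    (e : V ≃ₗ[ZMod 2] A × (B × C))
    (he : ∀ v, v ∈ Submodule.span (ZMod 2) (Set.range b) ↔ (e v).2 = 0)
    (hind : ∀ e, e + κ * k < n → (NI (t + 2) e (m1 + m2) : ℝ) ≤ P2 ((m1 + m2) * e / 2)) :
    (cnt (fun x : Fin n → V => ZS t κ b σ x) : ℝ) ≤
      P2 (k * n + (m1 + m2) * n / 2 + n / 2 + 1 - γ * τ) := by
  have h1 : cnt (fun x : Fin n → V => ZS t κ b σ x) ≤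
      cnt (fun x : Fin n → A × (B × C) => XS t σ κ k x) := by
    refine cnt_le_of_inj (fun x i => e (x i)) ?_ ?_
    · rintro x ⟨-, hn, hadm, -, hmin⟩
      refine ⟨hn.comp e.toLinearMap, fun i => ?_, fun u u' hu hu' huu => ?_, fun A' => ?_⟩
      · have h2 := (he _).1 (hadm.2 i)
        rw [map_sub, Prod.snd_sub, sub_eq_zero] at h2
        exact h2
      · refine min_inj hadm hmin hu hu' ?_
        show x u' - x u ∈ Submodule.span (ZMod 2) (Set.range b)
        rw [he, map_sub, Prod.snd_sub, sub_eq_zero]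
        exact huu.symm
      · set H' : Submodule (ZMod 2) V := (A'.prod ⊥).comap e.toLinearMap with hH'
        have hH'r : finrank (ZMod 2) H' = finrank (ZMod 2) A' := by
          have h2 : H' = (A'.prod (⊥ : Submodule (ZMod 2) (B × C))).map e.symm.toLinearMap := by
            rw [hH']
            exact Submodule.comap_equiv_eq_map_symm e _
          have h3 : finrank (ZMod 2) H' =
              finrank (ZMod 2) ↥(A'.prod (⊥ : Submodule (ZMod 2) (B × C))) := by
            rw [h2]
            exact LinearEquiv.finrank_map_eq e.symm _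
          rw [h3, ← Submodule.map_inl]
          exact finrank_map_inj _ LinearMap.inl_injective A'
        have h2 := min_sub hadm hmin H'
        simp only at h2
        rw [hHk, hH'r] at h2
        refine h2.trans (Nat.add_le_add_right (Finset.card_le_card fun i hi => ?_) _)
        rw [Finset.mem_filter] at hi ⊢
        refine ⟨Finset.mem_univ _, hi.2.1, fun h3 => hi.2.2 ?_⟩
        have h4 : (e (x (σ i) - x i)).2 = 0 := (he _).1 (hadm.2 i)
        show e (x (σ i) - x i) ∈ A'.prod ⊥
        rw [Submodule.mem_prod]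
        refine ⟨?_, by rw [h4]; exact Submodule.zero_mem _⟩
        rw [map_sub, Prod.fst_sub, ← neg_sub, ZModModule.neg_eq_self, ZModModule.sub_eq_add]
        exact h3
    · intro x y _ _ hxy
      funext i
      exact e.injective (congrFun hxy i)
  have h2 := xs_count (A := A) (B := B) (C := C) t a m1 m2 κ k τ γ cB cC hκ hτ hγ1 hγ2 σ hσ
  set ee := Fintype.card {i // σ i = i} with hee
  set p := Fintype.card {i // i < σ i} with hp
  have hep : ee + 2 * p = n := by
    have h3 := sum_split σ hσ (fun _ => 1)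
    simp only [Finset.sum_const, Finset.card_univ, Fintype.card_fin, smul_eq_mul, mul_one] at h3
    omega
  have hee2 : ee + κ * k < n := by
    have h3 : ee = (Finset.univ.filter (fun i => σ i = i)).card := Fintype.card_subtype _
    rw [h3]
    exact hcard
  have h3 := NI_transfer (ι := {i // σ i = i}) (V := B × C) (t + 2) ee (m1 + m2) rfl (by
    rw [Fintype.card_prod, cB, cC, pow_add])
  have h4 := hind ee hee2
  have h5 : (cnt (fun x : Fin n → V => ZS t κ b σ x) : ℝ) * P2 (γ * τ) ≤
      P2 (k * n) * P2 ((m1 + m2) * ee / 2) * (P2 ((m1 + m2) * p) * P2 (p + 1)) := by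
    have h6 : cnt (fun x : Fin n → V => ZS t κ b σ x) * 2 ^ (γ * τ) ≤
        (2 ^ k) ^ n * NI (t + 2) ee (m1 + m2) * (2 ^ ((m1 + m2) * p) * 2 ^ (p + 1)) := by
      rw [cA] at h2
      refine (Nat.mul_le_mul_right _ h1).trans (h2.trans ?_)
      exact Nat.mul_le_mul_right _ (Nat.mul_le_mul_left _ h3)
    have h7 : ((cnt (fun x : Fin n → V => ZS t κ b σ x) * 2 ^ (γ * τ) : ℕ) : ℝ) ≤
        (((2 ^ k) ^ n * NI (t + 2) ee (m1 + m2) * (2 ^ ((m1 + m2) * p) * 2 ^ (p + 1)) : ℕ) : ℝ) := by
      exact_mod_cast h6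
    push_cast at h7
    rw [← pow_mul, P2_nat, P2_nat, P2_nat, P2_nat] at h7
    push_cast at h7
    refine h7.trans ?_
    refine mul_le_mul_of_nonneg_right ?_ (mul_pos (P2_pos _) (P2_pos _)).le
    exact mul_le_mul_of_nonneg_left h4 (P2_pos _).le
  have h8 : (cnt (fun x : Fin n → V => ZS t κ b σ x) : ℝ) ≤
      P2 (k * n) * P2 ((m1 + m2) * ee / 2) * (P2 ((m1 + m2) * p) * P2 (p + 1)) *
        P2 (-(γ * τ)) := by
    have h9 : P2 (γ * τ) * P2 (-(γ * τ)) = 1 := by
      rw [← P2_add, add_neg_cancel]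
      unfold P2
      exact Real.rpow_zero 2
    calc (cnt (fun x : Fin n → V => ZS t κ b σ x) : ℝ)
        = (cnt (fun x : Fin n → V => ZS t κ b σ x) : ℝ) * P2 (γ * τ) * P2 (-(γ * τ)) := by
          rw [mul_assoc, h9, mul_one]
      _ ≤ _ := mul_le_mul_of_nonneg_right h5 (P2_pos _).le
  refine h8.trans ?_
  rw [← P2_add, ← P2_add, ← P2_add, ← P2_add]
  apply P2_mono
  have h10 : (n : ℝ) = ee + 2 * p := by rw [← hep]; push_cast; ring
  have h11 : (0 : ℝ) ≤ ee := Nat.cast_nonneg _
  rw [h10]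
  nlinarith

/-- the count for a basis and a pairing -/
theorem zs_count (t a m m1 m2 κ k τ γ : ℕ) (hV : Fintype.card V = 2 ^ m) (hm : k + m1 + m2 = m)
    (hκ : κ ≤ 4 * (a - t).choose t) (hτ : 8 * τ ≤ κ * k)
    (hγ1 : γ + a ≤ m1) (hγ2 : γ ≤ m2) (b : Fin k → V) (σ : Fin n → Fin n)
    (hind : ∀ e, e + κ * k < n → (NI (t + 2) e (m1 + m2) : ℝ) ≤ P2 ((m1 + m2) * e / 2)) :
    (cnt (fun x : Fin n → V => ZS t κ b σ x) : ℝ) ≤
      P2 (k * n + (m1 + m2) * n / 2 + n / 2 + 1 - γ * τ) := by
  by_cases hne : ∃ x : Fin n → V, ZS t κ b σ x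
  swap
  · have : cnt (fun x : Fin n → V => ZS t κ b σ x) = 0 := by
      rw [cnt_eq, Finset.card_eq_zero, Finset.filter_eq_empty_iff]
      intro w _ hw
      exact hne ⟨w, hw⟩
    rw [this, Nat.cast_zero]
    exact (P2_pos _).le
  obtain ⟨x0, hli, -, hadm, hcard, -⟩ := hne
  have hHk : finrank (ZMod 2) ↥(Submodule.span (ZMod 2) (Set.range b)) = k := by
    rw [finrank_span_eq_card hli, Fintype.card_fin]
  obtain ⟨e, he⟩ := exists_coord _ m k m1 m2 hV hHk hm
  exact zs_count_aux t a m1 m2 κ k τ γ (by rw [Fintype.card_fun, ZMod.card, Fintype.card_fin])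
    (by rw [Fintype.card_fun, ZMod.card, Fintype.card_fin])
    (by rw [Fintype.card_fun, ZMod.card, Fintype.card_fin]) hκ hτ hγ1 hγ2 b σ hadm.1 hcard hHk e
    he hind

end main

end RMH
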