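import Pool.Agent.RMX.Base44

/-!
# (ii): the rank on all rows

If for all sets J of rows with j1 <= |J| <= m - j1 the rank of the functions of degree <= t+1 of the
rows J is (1/2 +- dl) n, then the rank for all rows is at most (1/2 + (2t+3) dl) n. The rows are
coloured with t+2 colours; a monomial of degree t+1 misses a colour; the spaces without the colours
0 and a meet in a space which contains the one without both.
-/

set_option autoImplicit false
set_option linter.unusedSectionVars false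

open scoped BigOperators Pointwise
open Classical Module

namespace RMH

section ClassII

variable {ι : Type} [Fintype ι] {m : ℕ}

/-- the span of 1 and the rows in `J` -/
noncomputable def LJ (x : ι → (Fin m → ZMod 2)) (J : Finset (Fin m)) :
    Submodule (ZMod 2) (ι → ZMod 2) :=
  Submodule.span (ZMod 2) (insert 1 {f | ∃ j ∈ J, f = fun i => x i j})

lemma LJ_mono (x : ι → (Fin m → ZMod 2)) {J J' : Finset (Fin m)} (h : J ⊆ J') :
    LJ x J ≤ LJ x J' := by
  refine Submodule.span_mono (Set.insert_subset_insert ?_)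
  rintro f ⟨j, hj, rfl⟩
  exact ⟨j, h hj, rfl⟩

/-- affine functions of the coordinates in terms of the coordinates -/
lemma Aff_map_pull {κ : Type} [Fintype κ] (z : ι → (κ → ZMod 2)) :
    (Aff (κ → ZMod 2)).map (pull z) =
      Submodule.span (ZMod 2) (insert 1 {f | ∃ j : κ, f = fun i => z i j}) := by
  apply le_antisymm
  · rw [Aff, Submodule.map_span, Submodule.span_le]
    rintro _ ⟨f, hf, rfl⟩
    rcases hf with rfl | ⟨a, rfl⟩
    · exact Submodule.subset_span (Set.mem_insert _ _)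
    · have h1 : pull z (fun v => a v) = ∑ j, a (Pi.single j 1) • (fun i => z i j) := by
        funext i
        rw [pull_apply, Finset.sum_apply]
        simp only [Pi.smul_apply, smul_eq_mul]
        conv_lhs => rw [← LinearMap.sum_single_apply (fun _ => ZMod 2) (z i)]
        rw [map_sum]
        refine Finset.sum_congr rfl fun j _ => ?_
        have h2 : (Pi.single j (z i j) : κ → ZMod 2) = z i j • Pi.single j 1 := by
          rw [← Pi.single_smul, smul_eq_mul, mul_one]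
        rw [h2, map_smul, smul_eq_mul, mul_comm]
      rw [h1]
      refine Submodule.sum_mem _ fun j _ => Submodule.smul_mem _ _ (Submodule.subset_span ?_)
      exact Set.mem_insert_of_mem _ ⟨j, rfl⟩
  · rw [Submodule.span_le]
    rintro f hf
    rcases hf with rfl | ⟨j, rfl⟩
    · exact ⟨1, one_mem_Aff44, rfl⟩
    · exact ⟨fun v => (LinearMap.proj j : (κ → ZMod 2) →ₗ[ZMod 2] ZMod 2) v,
        dual_mem_Aff44 _, rfl⟩

lemma map_rws (x : ι → (Fin m → ZMod 2)) (J : Finset (Fin m)) (q : ℕ) :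
    (PP (J → ZMod 2) q).map (pull (rws J x)) = LJ x J ^ q := by
  rw [PP, map_pull_pow, Aff_map_pull]
  congr 2
  ext f
  constructor
  · rintro (rfl | ⟨j, rfl⟩)
    · exact Or.inl rfl
    · exact Or.inr ⟨j, j.2, rfl⟩
  · rintro (rfl | ⟨j, hj, rfl⟩)
    · exact Or.inl rfl
    · exact Or.inr ⟨⟨j, hj⟩, rfl⟩

lemma map_all (x : ι → (Fin m → ZMod 2)) (q : ℕ) :
    (PP (Fin m → ZMod 2) q).map (pull x) = LJ x Finset.univ ^ q := by
  rw [PP, map_pull_pow, Aff_map_pull]
  congr 2
  ext f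
  constructor
  · rintro (rfl | ⟨j, rfl⟩)
    · exact Or.inl rfl
    · exact Or.inr ⟨j, Finset.mem_univ _, rfl⟩
  · rintro (rfl | ⟨j, _, rfl⟩)
    · exact Or.inl rfl
    · exact Or.inr ⟨j, rfl⟩

/-- a monomial of degree at most `q` misses one of `q + 1` colours -/
lemma LJ_pow_le (x : ι → (Fin m → ZMod 2)) (q : ℕ) (c : Fin m → Fin (q + 1)) :
    LJ x Finset.univ ^ q ≤
      ⨆ a : Fin (q + 1), LJ x (Finset.univ.filter (fun i => c i ≠ a)) ^ q := by
  have h0 : LJ x Finset.univ ^ q = Submodule.span (ZMod 2)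
      ((insert 1 {f | ∃ j ∈ (Finset.univ : Finset (Fin m)), f = fun i => x i j}) ^ q) := by
    unfold LJ
    rw [Submodule.span_pow]
  rw [h0, Submodule.span_le]
  intro f hf
  rw [Set.mem_pow] at hf
  obtain ⟨g, rfl⟩ := hf
  -- the colours of the factors
  have h1 : ∀ i : Fin q, ∃ b : Fin (q + 1), ∀ a, a ≠ b →
      (g i : ι → ZMod 2) ∈ LJ x (Finset.univ.filter (fun i => c i ≠ a)) := by
    intro i
    rcases (g i).2 with h | ⟨j, -, h⟩
    · refine ⟨0, fun a _ => ?_⟩
      rw [h]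
      exact Submodule.subset_span (Set.mem_insert _ _)
    · refine ⟨c j, fun a ha => ?_⟩
      rw [h]
      refine Submodule.subset_span (Set.mem_insert_of_mem _ ⟨j, ?_, rfl⟩)
      rw [Finset.mem_filter]
      exact ⟨Finset.mem_univ _, ha.symm⟩
  choose b hb using h1
  obtain ⟨a, ha⟩ : ∃ a : Fin (q + 1), ∀ i, b i ≠ a := by
    by_contra hcon
    push Not at hcon
    have h2 : Function.Surjective b := hcon
    have h3 := Fintype.card_le_of_surjective b h2
    rw [Fintype.card_fin, Fintype.card_fin] at h3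
    omega
  have h4 : (List.ofFn fun i => (g i : ι → ZMod 2)).prod ∈
      LJ x (Finset.univ.filter (fun i => c i ≠ a)) ^ q := by
    refine Submodule.pow_subset_pow _ ?_
    rw [Set.mem_pow]
    exact ⟨fun i => ⟨g i, hb i a (ha i).symm⟩, rfl⟩
  exact (le_iSup (fun a : Fin (q + 1) => LJ x (Finset.univ.filter (fun i => c i ≠ a)) ^ q) a) h4

/-- dimension of a sum of spaces which all meet the first one in a large space -/
lemma finrank_sup_le {κ : Type} (Q : κ → Submodule (ZMod 2) (ι → ZMod 2))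
    (Q0 : Submodule (ZMod 2) (ι → ZMod 2)) (R : κ → Submodule (ZMod 2) (ι → ZMod 2))
    (h0 : ∀ a, R a ≤ Q0) (h1 : ∀ a, R a ≤ Q a) (s : Finset κ) :
    finrank (ZMod 2) ↥(Q0 ⊔ s.sup Q) + ∑ a ∈ s, finrank (ZMod 2) (R a) ≤
      finrank (ZMod 2) Q0 + ∑ a ∈ s, finrank (ZMod 2) (Q a) := by
  induction s using Finset.induction_on with
  | empty => rw [Finset.sup_empty, sup_bot_eq]; simp
  | insert a s ha ih =>
    rw [Finset.sup_insert, Finset.sum_insert ha, Finset.sum_insert ha]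
    have e1 : Q0 ⊔ (Q a ⊔ s.sup Q) = (Q0 ⊔ s.sup Q) ⊔ Q a := by
      rw [sup_comm (Q a), sup_assoc]
    rw [e1]
    have e2 := Submodule.finrank_sup_add_finrank_inf_eq (Q0 ⊔ s.sup Q) (Q a)
    have e3 : finrank (ZMod 2) (R a) ≤ finrank (ZMod 2) ↥((Q0 ⊔ s.sup Q) ⊓ Q a) :=
      Submodule.finrank_mono (le_inf ((h0 a).trans le_sup_left) (h1 a))
    omega

/-- the size of a colour class -/
lemma card_colour (q j1 : ℕ) (h : (q + 1) * j1 ≤ m) (a : Fin (q + 1)) :
    j1 ≤ (Finset.univ.filter (fun i : Fin m =>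
      (⟨(i : ℕ) % (q + 1), Nat.mod_lt _ (Nat.succ_pos q)⟩ : Fin (q + 1)) = a)).card := by
  have hlt : ∀ j : Fin j1, (a : ℕ) + (q + 1) * j < m := by
    intro j
    have h1 := a.2
    have h2 : (q + 1) * ((j : ℕ) + 1) ≤ (q + 1) * j1 := Nat.mul_le_mul_left _ j.2
    rw [mul_add, mul_one] at h2
    omega
  have h1 : (Finset.univ : Finset (Fin j1)).card ≤ (Finset.univ.filter (fun i : Fin m =>
      (⟨(i : ℕ) % (q + 1), Nat.mod_lt _ (Nat.succ_pos q)⟩ : Fin (q + 1)) = a)).card := by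
    refine Finset.card_le_card_of_injOn (fun j => (⟨(a : ℕ) + (q + 1) * j, hlt j⟩ : Fin m)) ?_ ?_
    · intro j _
      rw [Finset.mem_coe, Finset.mem_filter]
      refine ⟨Finset.mem_univ _, ?_⟩
      apply Fin.ext
      show ((a : ℕ) + (q + 1) * j) % (q + 1) = a
      rw [Nat.add_mul_mod_self_left]
      exact Nat.mod_eq_of_lt a.2
    · intro j _ j' _ hjj
      have h2 : (a : ℕ) + (q + 1) * j = (a : ℕ) + (q + 1) * j' := congrArg Fin.val hjj
      have h3 : (q + 1) * (j : ℕ) = (q + 1) * (j' : ℕ) := by omega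
      exact Fin.ext (Nat.eq_of_mul_eq_mul_left (Nat.succ_pos q) h3)
  rwa [Finset.card_univ, Fintype.card_fin] at h1

/-- (ii) the rank on all rows -/
theorem rank_all7 (t j1 : ℕ) (ht : 1 ≤ t) (hj : (t + 2) * j1 ≤ m) (x : ι → (Fin m → ZMod 2))
    (dl : ℝ)
    (hw : ∀ J : Finset (Fin m), j1 ≤ J.card → J.card ≤ m - j1 →
      (1 / 2 - dl) * Fintype.card ι ≤
        (finrank (ZMod 2) ↥((PP (J → ZMod 2) (t + 1)).map (pull (rws J x))) : ℝ) ∧
      (finrank (ZMod 2) ↥((PP (J → ZMod 2) (t + 1)).map (pull (rws J x))) : ℝ) ≤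
        (1 / 2 + dl) * Fintype.card ι) :
    (finrank (ZMod 2) ↥((PP (Fin m → ZMod 2) (t + 1)).map (pull x)) : ℝ) ≤
      (1 / 2 + (2 * t + 3) * dl) * Fintype.card ι := by
  set n : ℝ := ((Fintype.card ι : ℕ) : ℝ) with hn
  set c : Fin m → Fin (t + 1 + 1) := fun i =>
    ⟨(i : ℕ) % (t + 1 + 1), Nat.mod_lt _ (Nat.succ_pos (t + 1))⟩ with hc
  have hcol : ∀ a, j1 ≤ (Finset.univ.filter (fun i => c i = a)).card := fun a =>
    card_colour (t + 1) j1 hj a
  set JA : Fin (t + 1 + 1) → Finset (Fin m) := fun a => Finset.univ.filter (fun i => c i ≠ a)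
    with hJA
  set JB : Fin (t + 1 + 1) → Finset (Fin m) := fun a =>
    Finset.univ.filter (fun i => c i ≠ 0 ∧ c i ≠ a) with hJB
  have hJAle : ∀ a, (JA a).card ≤ m - j1 := by
    intro a
    have h1 := Finset.card_filter_add_card_filter_not (s := (Finset.univ : Finset (Fin m)))
      (fun i => c i = a)
    rw [Finset.card_univ, Fintype.card_fin] at h1
    have h2 := hcol a
    have h3 : (JA a).card = (Finset.univ.filter (fun i => ¬ c i = a)).card := rfl
    omega
  have hJBle : ∀ a, (JB a).card ≤ m - j1 := by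
    intro a
    refine le_trans (Finset.card_le_card ?_) (hJAle 0)
    intro i hi
    rw [hJB, Finset.mem_filter] at hi
    rw [hJA, Finset.mem_filter]
    exact ⟨hi.1, hi.2.1⟩
  have hJBge : ∀ a, j1 ≤ (JB a).card := by
    intro a
    obtain ⟨b, hb0, hba⟩ : ∃ b : Fin (t + 1 + 1), b ≠ 0 ∧ b ≠ a := by
      have h1 : ({0, a} : Finset (Fin (t + 1 + 1))).card < Fintype.card (Fin (t + 1 + 1)) := by
        refine lt_of_le_of_lt Finset.card_le_two ?_
        rw [Fintype.card_fin]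
        omega
      obtain ⟨b, hb⟩ := Finset.exists_mem_notMem_of_card_lt_card (s := {0, a})
        (t := (Finset.univ : Finset (Fin (t + 1 + 1)))) (by rwa [Finset.card_univ])
      refine ⟨b, fun h => hb.2 ?_, fun h => hb.2 ?_⟩
      · rw [h]; simp
      · rw [h]; simp
    refine (hcol b).trans (Finset.card_le_card ?_)
    intro i hi
    rw [Finset.mem_filter] at hi
    rw [hJB, Finset.mem_filter]
    refine ⟨hi.1, ?_, ?_⟩
    · rw [hi.2]; exact hb0
    · rw [hi.2]; exact hba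
  have hJAge : ∀ a, j1 ≤ (JA a).card := by
    intro a
    refine (hJBge a).trans (Finset.card_le_card ?_)
    intro i hi
    rw [hJB, Finset.mem_filter] at hi
    rw [hJA, Finset.mem_filter]
    exact ⟨hi.1, hi.2.2⟩
  -- ranks
  have hA : ∀ a, (finrank (ZMod 2) ↥(LJ x (JA a) ^ (t + 1)) : ℝ) ≤ (1 / 2 + dl) * n := by
    intro a
    rw [← map_rws]
    exact (hw (JA a) (hJAge a) (hJAle a)).2
  have hB : ∀ a, (1 / 2 - dl) * n ≤ (finrank (ZMod 2) ↥(LJ x (JB a) ^ (t + 1)) : ℝ) := by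
    intro a
    rw [← map_rws]
    exact (hw (JB a) (hJBge a) (hJBle a)).1
  have hpow : ∀ {M N : Submodule (ZMod 2) (ι → ZMod 2)}, M ≤ N → M ^ (t + 1) ≤ N ^ (t + 1) :=
    fun h => pow_le_pow_left' h _
  have hsup := finrank_sup_le (fun a => LJ x (JA a) ^ (t + 1)) (LJ x (JA 0) ^ (t + 1))
    (fun a => LJ x (JB a) ^ (t + 1))
    (fun a => hpow (LJ_mono x fun i hi => by
      rw [hJB, Finset.mem_filter] at hi
      rw [hJA, Finset.mem_filter]
      exact ⟨hi.1, hi.2.1⟩))
    (fun a => hpow (LJ_mono x fun i hi => by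
      rw [hJB, Finset.mem_filter] at hi
      rw [hJA, Finset.mem_filter]
      exact ⟨hi.1, hi.2.2⟩)) (Finset.univ.erase (0 : Fin (t + 1 + 1)))
  have hle : LJ x Finset.univ ^ (t + 1) ≤ LJ x (JA 0) ^ (t + 1) ⊔
      (Finset.univ.erase (0 : Fin (t + 1 + 1))).sup (fun a => LJ x (JA a) ^ (t + 1)) := by
    refine (LJ_pow_le x (t + 1) c).trans (iSup_le fun a => ?_)
    by_cases ha : a = 0
    · rw [ha]; exact le_sup_left
    · refine le_trans ?_ le_sup_right
      exact Finset.le_sup (f := fun a => LJ x (JA a) ^ (t + 1))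
        (Finset.mem_erase.2 ⟨ha, Finset.mem_univ _⟩)
  have h1 := Submodule.finrank_mono hle
  rw [map_all]
  have h2 : (finrank (ZMod 2) ↥(LJ x Finset.univ ^ (t + 1)) : ℝ) +
      ∑ a ∈ Finset.univ.erase (0 : Fin (t + 1 + 1)),
        (finrank (ZMod 2) ↥(LJ x (JB a) ^ (t + 1)) : ℝ) ≤
      (finrank (ZMod 2) ↥(LJ x (JA 0) ^ (t + 1)) : ℝ) +
      ∑ a ∈ Finset.univ.erase (0 : Fin (t + 1 + 1)),
        (finrank (ZMod 2) ↥(LJ x (JA a) ^ (t + 1)) : ℝ) := by
    have h3 : finrank (ZMod 2) ↥(LJ x Finset.univ ^ (t + 1)) +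
      ∑ a ∈ Finset.univ.erase (0 : Fin (t + 1 + 1)),
        finrank (ZMod 2) ↥(LJ x (JB a) ^ (t + 1)) ≤
      finrank (ZMod 2) ↥(LJ x (JA 0) ^ (t + 1)) +
      ∑ a ∈ Finset.univ.erase (0 : Fin (t + 1 + 1)),
        finrank (ZMod 2) ↥(LJ x (JA a) ^ (t + 1)) := by omega
    exact_mod_cast h3
  have hcard : (Finset.univ.erase (0 : Fin (t + 1 + 1))).card = t + 1 := by
    rw [Finset.card_erase_of_mem (Finset.mem_univ _), Finset.card_univ, Fintype.card_fin]
    omega
  have h4 : ∑ a ∈ Finset.univ.erase (0 : Fin (t + 1 + 1)),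
        (finrank (ZMod 2) ↥(LJ x (JA a) ^ (t + 1)) : ℝ) ≤ (t + 1) * ((1 / 2 + dl) * n) := by
    refine (Finset.sum_le_sum fun a _ => hA a).trans (le_of_eq ?_)
    rw [Finset.sum_const, hcard, nsmul_eq_mul]
    push_cast
    rfl
  have h5 : (t + 1) * ((1 / 2 - dl) * n) ≤ ∑ a ∈ Finset.univ.erase (0 : Fin (t + 1 + 1)),
        (finrank (ZMod 2) ↥(LJ x (JB a) ^ (t + 1)) : ℝ) := by
    refine le_trans (le_of_eq ?_) (Finset.sum_le_sum fun a _ => hB a)
    rw [Finset.sum_const, hcard, nsmul_eq_mul]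
    push_cast
    rfl
  have h6 := hA 0
  linarith

end ClassII

end RMH
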