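import Pool.Agent.RMX.Base44

/-! Parameters for the class of families without structured pairs (helper7): numeric base facts -/

set_option autoImplicit false
set_option linter.unusedSectionVars false

open scoped BigOperators
open Classical

namespace RMH

lemma choose_add_ge7 (N k q : ℕ) : q * N.choose k ≤ (N + q).choose (k + 1) := by
  induction q with
  | zero => rw [Nat.zero_mul]; exact Nat.zero_le _
  | succ q ih =>
    rw [show N + (q + 1) = (N + q) + 1 by ring, Nat.choose_succ_succ', Nat.succ_mul]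
    have h1 : N.choose k ≤ (N + q).choose k := Nat.choose_le_choose k (Nat.le_add_right _ _)
    omega

lemma pow_le_choose_mul7 (q k : ℕ) : q ^ k ≤ (q * k).choose k := by
  induction k with
  | zero => simp
  | succ k ih =>
    have h1 := choose_add_ge7 (q * k) k q
    rw [show q * (k + 1) = q * k + q by ring, pow_succ, Nat.mul_comm]
    exact (Nat.mul_le_mul_left q ih).trans h1

lemma pow_le_choose7 {q k N : ℕ} (h : q * k ≤ N) : q ^ k ≤ N.choose k :=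
  (pow_le_choose_mul7 q k).trans (Nat.choose_le_choose k h)

/-- the range of the parameters -/
structure Par7 (t Lam m n A : ℕ) : Prop where
  ht : 1 ≤ t
  hL : 10 ^ 8 * (t + 2) ^ 3 ≤ Lam
  hA : 1 ≤ A
  hmL : m ≤ 2 ^ Lam
  hm : A * Lam ^ 8 ≤ 2 * m
  hn1 : A ^ t * Lam ^ 4 ≤ n
  hn2 : n ≤ 2 * A ^ (t + 1)

namespace Par7

variable {t Lam m n A : ℕ} (P : Par7 t Lam m n A)

include P

lemma L1 : 1 ≤ Lam := by
  have h1 := P.hL
  have h2 : 1 ≤ (t + 2) ^ 3 := Nat.one_le_pow _ _ (by omega)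
  omega

lemma LT : 10 ^ 8 * (t + 2) ≤ Lam := by
  have h1 := P.hL
  have h2 : t + 2 ≤ (t + 2) ^ 3 := Nat.le_self_pow (by norm_num) _
  omega

lemma LT2 : 10 ^ 8 * (t + 2) ^ 2 ≤ Lam := by
  have h1 := P.hL
  have h2 : (t + 2) ^ 2 ≤ (t + 2) ^ 3 := Nat.pow_le_pow_right (by omega) (by norm_num)
  omega

lemma Am : A ≤ m := by
  have h1 := P.hm
  have h2 : 2 ≤ Lam ^ 8 := by
    have h3 : Lam ≤ Lam ^ 8 := Nat.le_self_pow (by norm_num) _
    have h4 := P.LT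
    omega
  have h3 : A * 2 ≤ A * Lam ^ 8 := Nat.mul_le_mul_left _ h2
  omega

lemma n_le : n ≤ 2 ^ ((t + 1) * Lam + 1) := by
  refine P.hn2.trans ?_
  have h1 : A ^ (t + 1) ≤ (2 ^ Lam) ^ (t + 1) := Nat.pow_le_pow_left (P.Am.trans P.hmL) _
  rw [← pow_mul, Nat.mul_comm Lam] at h1
  rw [pow_succ 2]
  omega

/-- the condition for the fibre bound -/
lemma fib : 2 * n < (6 * (t + 1) * A - (t + 1)).choose (t + 1) := by
  have hA := P.hA
  have h1 : (5 * A) * (t + 1) ≤ 6 * (t + 1) * A - (t + 1) := by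
    have h2 : t + 1 ≤ (t + 1) * A := Nat.le_mul_of_pos_right _ hA
    have h3 : (5 * A) * (t + 1) = 5 * ((t + 1) * A) := by ring
    have h4 : 6 * (t + 1) * A = 6 * ((t + 1) * A) := by ring
    omega
  refine lt_of_lt_of_le ?_ (pow_le_choose7 h1)
  rw [mul_pow]
  have h5 : 5 ^ 2 ≤ 5 ^ (t + 1) := Nat.pow_le_pow_right (by norm_num) (by have := P.ht; omega)
  have h6 : 0 < A ^ (t + 1) := Nat.pow_pos hA
  have h7 := P.hn2
  nlinarith

/-! real facts -/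

lemma lR : (10 : ℝ) ^ 8 * ((t : ℝ) + 2) ^ 3 ≤ Lam := by
  have h := P.hL
  exact_mod_cast h

lemma TR : (3 : ℝ) ≤ (t : ℝ) + 2 := by
  have h : (1 : ℝ) ≤ t := by exact_mod_cast P.ht
  linarith

lemma lTR : (10 : ℝ) ^ 8 * ((t : ℝ) + 2) ≤ Lam := by
  have h1 := P.LT
  exact_mod_cast h1

lemma l0 : (0 : ℝ) < Lam := by
  have h1 := P.lTR
  have h2 := P.TR
  linarith

lemma l8 : (10 : ℝ) ^ 8 ≤ Lam := by
  have h1 := P.lTR
  have h2 := P.TR
  linarith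

lemma AR : (1 : ℝ) ≤ A := by exact_mod_cast P.hA

lemma mR : (A : ℝ) * Lam ^ 8 ≤ 2 * m := by exact_mod_cast P.hm

lemma nR : (A : ℝ) ^ t * Lam ^ 4 ≤ n := by exact_mod_cast P.hn1

lemma nR2 : (n : ℝ) ≤ 2 * (A : ℝ) ^ (t + 1) := by exact_mod_cast P.hn2

lemma n4 : (Lam : ℝ) ^ 4 ≤ n := by
  have h1 := P.nR
  have h2 : (1 : ℝ) ≤ (A : ℝ) ^ t := one_le_pow₀ P.AR
  have h3 : (0 : ℝ) ≤ (Lam : ℝ) ^ 4 := by positivity
  nlinarith

lemma n0 : (0 : ℝ) < n := lt_of_lt_of_le (pow_pos P.l0 4) P.n4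

lemma m8 : (Lam : ℝ) ^ 8 ≤ 2 * m := by
  have h1 := P.mR
  have h2 := P.AR
  have h3 : (0 : ℝ) ≤ (Lam : ℝ) ^ 8 := by positivity
  nlinarith

lemma m7 : (Lam : ℝ) ^ 7 ≤ m := by
  have h1 := P.m8
  have h2 := P.l8
  have h3 : (0 : ℝ) ≤ (Lam : ℝ) ^ 7 := by positivity
  have h4 : (Lam : ℝ) ^ 8 = Lam * Lam ^ 7 := by ring
  rw [h4] at h1
  nlinarith

lemma m0 : (0 : ℝ) < m := lt_of_lt_of_le (pow_pos P.l0 7) P.m7

lemma lpow {i j : ℕ} (h : i ≤ j) : (Lam : ℝ) ^ i ≤ (Lam : ℝ) ^ j := by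
  refine pow_le_pow_right₀ ?_ h
  have := P.l8
  linarith

/-- `m ≤ U` where `U = m n / Lam ^ 4` -/
lemma mU : (m : ℝ) ≤ m * n / Lam ^ 4 := by
  rw [le_div_iff₀ (pow_pos P.l0 4)]
  exact mul_le_mul_of_nonneg_left P.n4 P.m0.le

lemma nlU : (Lam : ℝ) ^ 2 * n ≤ m * n / Lam ^ 4 := by
  rw [le_div_iff₀ (pow_pos P.l0 4)]
  have h1 : (Lam : ℝ) ^ 2 * n * Lam ^ 4 = (Lam : ℝ) ^ 6 * n := by ring
  rw [h1]
  exact mul_le_mul_of_nonneg_right ((P.lpow (by norm_num)).trans P.m7) P.n0.le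

lemma nU : (n : ℝ) ≤ m * n / Lam ^ 4 := by
  refine le_trans ?_ P.nlU
  have h1 : (1 : ℝ) ≤ (Lam : ℝ) ^ 2 := one_le_pow₀ (by have := P.l8; linarith)
  have h2 := P.n0
  nlinarith

lemma oneU : (1 : ℝ) ≤ m * n / Lam ^ 4 := by
  refine le_trans ?_ P.nU
  refine le_trans ?_ P.n4
  exact one_le_pow₀ (by have := P.l8; linarith)

lemma lU : (Lam : ℝ) ≤ m * n / Lam ^ 4 := by
  refine le_trans ?_ P.nU
  refine le_trans ?_ P.n4
  have := P.lpow (i := 1) (j := 4) (by norm_num)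
  rwa [pow_one] at this

lemma AnU : ((t : ℝ) + 1) * A * n ≤ m * n / Lam ^ 4 := by
  rw [le_div_iff₀ (pow_pos P.l0 4)]
  have h1 : ((t : ℝ) + 1) * A * n * Lam ^ 4 = (((t : ℝ) + 1) * Lam ^ 4 * A) * n := by ring
  rw [h1]
  refine mul_le_mul_of_nonneg_right ?_ P.n0.le
  have h2 := P.mR
  have h3 : 2 * ((t : ℝ) + 1) ≤ Lam ^ 4 := by
    have h4 := P.lpow (i := 1) (j := 4) (by norm_num)
    rw [pow_one] at h4
    have h5 := P.lTR
    have h6 := P.TR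
    linarith
  have h4 : (0 : ℝ) ≤ (A : ℝ) * Lam ^ 4 := by positivity
  nlinarith

/-- `m (n / Lam ^ 3) = Lam U` -/
lemma mdn : (m : ℝ) * (n / Lam ^ 3) = Lam * (m * n / Lam ^ 4) := by
  have h := P.l0.ne'
  field_simp

lemma dnU : (n : ℝ) / Lam ^ 3 ≤ m * n / Lam ^ 4 := by
  refine le_trans ?_ P.nU
  refine div_le_self P.n0.le ?_
  exact one_le_pow₀ (by have := P.l8; linarith)

end Par7

end RMH
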