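import Pool.Agent.RM7.Par1

/-! Parameters for the class of families without structured pairs (helper7): the conditions -/

set_option autoImplicit false
set_option linter.unusedSectionVars false

open scoped BigOperators
open Classical

namespace RMH

namespace Par7

variable {t Lam m n A : ℕ} (P : Par7 t Lam m n A)

include P

lemma TU (X : ℝ) (hX : 0 ≤ X) : 10 ^ 8 * ((t : ℝ) + 2) * X ≤ Lam * X :=
  mul_le_mul_of_nonneg_right P.lTR hX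

lemma aU : ((6 * (t + 1) * A : ℕ) : ℝ) * n ≤ 6 * (m * n / Lam ^ 4) := by
  have h := P.AnU
  push_cast
  nlinarith

/-- class (i) -/
lemma hI7 (jw : ℕ) (hjw : (m : ℝ) ≤ jw * (4 * ((t : ℝ) + 2))) :
    (Lam : ℝ) ^ 2 * n + ((Lam + 1 : ℕ) : ℝ) + 3 + (2 * ((6 * (t + 1) * A : ℕ) : ℝ) + 3) * n + 2 * m
      ≤ jw * (1 / (Lam : ℝ) ^ 3 * n) := by
  have hD : 1 / (Lam : ℝ) ^ 3 * n = n / Lam ^ 3 := by ring
  rw [hD]
  have h1 := P.nlU
  have h2 := P.lU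
  have h3 := P.aU
  have h4 := P.nU
  have h5 := P.mU
  have h6 := P.oneU
  have h7 := P.mdn
  have hT := P.TR
  set U : ℝ := m * n / Lam ^ 4 with hU
  have hD0 : (0 : ℝ) ≤ n / Lam ^ 3 := by positivity
  have h8 := P.TU U (by linarith)
  have h9 : (m : ℝ) * (n / Lam ^ 3) ≤ jw * (4 * ((t : ℝ) + 2)) * (n / Lam ^ 3) :=
    mul_le_mul_of_nonneg_right hjw hD0
  have h10 : ((t : ℝ) + 2) * (25 * 10 ^ 6 * U) ≤ ((t : ℝ) + 2) * (jw * (n / Lam ^ 3)) := by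
    nlinarith
  have h11 := le_of_mul_le_mul_left h10 (by linarith)
  push_cast at *
  linarith

/-- class (iii) -/
lemma hIII7 :
    (Lam : ℝ) ^ 2 * n + 2 * ((Lam + 1 : ℕ) : ℝ) + 2 + (((6 * (t + 1) * A : ℕ) : ℝ) + 3) * n
      ≤ m * (1 / (Lam : ℝ) ^ 3 * n) := by
  have hD : 1 / (Lam : ℝ) ^ 3 * n = n / Lam ^ 3 := by ring
  rw [hD]
  have h1 := P.nlU
  have h2 := P.lU
  have h3 := P.aU
  have h4 := P.nU
  have h6 := P.oneU
  have h7 := P.mdn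
  have hT := P.TR
  set U : ℝ := m * n / Lam ^ 4 with hU
  have h8 := P.TU U (by linarith)
  have h9 : 10 ^ 8 * 3 * U ≤ 10 ^ 8 * ((t : ℝ) + 2) * U :=
    mul_le_mul_of_nonneg_right (by linarith) (by linarith)
  push_cast at *
  linarith

/-- class D -/
lemma hD7 (g j0 j1 : ℕ) (th : ℝ) (hg : 72 * (n : ℝ) ≤ g * (Lam ^ 3 * m))
    (hth : th * g = (1 / (Lam : ℝ) ^ 3 + 8 / (Lam : ℝ) ^ 3) * n)
    (hj0 : (j0 : ℝ) ≤ m / 2 + 1) (hj1 : (3 * m / 4 - 1 : ℝ) ≤ j1) (hj1' : (j1 : ℝ) ≤ m) :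
    (Lam : ℝ) ^ 2 * n + 2 * ((Lam + 1 : ℕ) : ℝ) + 2 + (((6 * (t + 1) * A : ℕ) : ℝ) + 2) * n
      + 2 * th * (1 / (Lam : ℝ) ^ 3 * n) + ((j1 : ℝ) - j0) + ((m : ℝ) - j1) * (1 / (Lam : ℝ) ^ 3 * n)
      ≤ ((j1 : ℝ) - j0) * (8 / (Lam : ℝ) ^ 3 * n) := by
  have hD : 1 / (Lam : ℝ) ^ 3 * n = n / Lam ^ 3 := by ring
  have hD2 : 8 / (Lam : ℝ) ^ 3 * n = 8 * (n / Lam ^ 3) := by ring
  have hD3 : (1 / (Lam : ℝ) ^ 3 + 8 / (Lam : ℝ) ^ 3) * n = 9 * (n / Lam ^ 3) := by ring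
  rw [hD3] at hth
  rw [hD, hD2]
  have h1 := P.nlU
  have h2 := P.lU
  have h3 := P.aU
  have h4 := P.nU
  have h5 := P.mU
  have h6 := P.oneU
  have h7 := P.mdn
  have hT := P.TR
  have hDU := P.dnU
  have hm0 := P.m0
  have hl3 : (0 : ℝ) < (Lam : ℝ) ^ 3 := pow_pos P.l0 3
  set U : ℝ := m * n / Lam ^ 4 with hU
  have h8 := P.TU U (by linarith)
  have hD0 : (0 : ℝ) < n / Lam ^ 3 := div_pos P.n0 hl3
  have hgD : 72 * ((n : ℝ) / Lam ^ 3) ≤ g * m := by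
    have h10 : 72 * ((n : ℝ) / Lam ^ 3) = (72 * n) / Lam ^ 3 := by ring
    rw [h10, div_le_iff₀ hl3]
    linarith
  set D : ℝ := (n : ℝ) / Lam ^ 3 with hDdef
  have hg0 : (0 : ℝ) < g := by
    by_contra hcon
    have h11 : (g : ℝ) = 0 := le_antisymm (not_lt.1 hcon) (Nat.cast_nonneg _)
    rw [h11] at hgD
    linarith
  have hth8 : th ≤ m / 8 := by
    have h12 : th * g ≤ m / 8 * g := by
      rw [hth]
      linarith
    exact le_of_mul_le_mul_right h12 hg0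
  have h13 : th * D ≤ m / 8 * D := mul_le_mul_of_nonneg_right hth8 hD0.le
  have h14 : ((m : ℝ) - j1) * D ≤ (m / 4 + 1) * D :=
    mul_le_mul_of_nonneg_right (by linarith) hD0.le
  have h15 : (m / 4 - 2 : ℝ) * (8 * D) ≤ ((j1 : ℝ) - j0) * (8 * D) :=
    mul_le_mul_of_nonneg_right (by linarith) (by linarith)
  have h16 : 10 ^ 8 * 3 * U ≤ 10 ^ 8 * ((t : ℝ) + 2) * U :=
    mul_le_mul_of_nonneg_right (by linarith) (by linarith)
  have h17 : (0 : ℝ) ≤ j0 := Nat.cast_nonneg _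
  push_cast at *
  nlinarith

/-- `m rho ≤ 288 D + 12 m` -/
lemma mrho (g : ℕ) (hg : ((g : ℝ) - 1) * (Lam ^ 3 * m) ≤ 72 * n) :
    (m : ℝ) * ((4 * (g + 2) : ℕ) : ℝ) ≤ 288 * (n / Lam ^ 3) + 12 * m := by
  have hl3 : (0 : ℝ) < (Lam : ℝ) ^ 3 := pow_pos P.l0 3
  have h1 : ((g : ℝ) - 1) * m ≤ 72 * (n / Lam ^ 3) := by
    have h10 : 72 * ((n : ℝ) / Lam ^ 3) = (72 * n) / Lam ^ 3 := by ring
    rw [h10, le_div_iff₀ hl3]
    linarith
  push_cast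
  nlinarith

/-- the number of points and pairs -/
lemma pU (p : ℕ) (hp : (n : ℝ) ≤ p * (4000 * ((t + 1) * Lam + 1))) :
    (10 : ℝ) ^ 10 * ((Lam : ℝ) * (m * n / Lam ^ 4)) ≤ m * p := by
  have hl := P.l0
  have hT := P.TR
  have h1 : ((t : ℝ) + 1) * Lam + 1 ≤ ((t : ℝ) + 2) * Lam := by
    have := P.l8
    nlinarith
  have hp0 : (0 : ℝ) ≤ p := Nat.cast_nonneg _
  have h2 : (n : ℝ) ≤ p * (4000 * (((t : ℝ) + 2) * Lam)) := by
    refine hp.trans (mul_le_mul_of_nonneg_left ?_ hp0)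
    linarith
  have h3 : (10 : ℝ) ^ 10 * ((Lam : ℝ) * (m * n / Lam ^ 4)) = (10 ^ 10 * (m * n)) / Lam ^ 3 := by
    field_simp
  rw [h3, div_le_iff₀ (pow_pos hl 3)]
  have h4 : (10 : ℝ) ^ 16 * ((t : ℝ) + 2) ≤ (Lam : ℝ) ^ 2 := by
    have h5 := P.lTR
    have h6 := P.l8
    nlinarith
  have hm0 := P.m0
  have h5 : (m : ℝ) * n ≤ m * (p * (4000 * (((t : ℝ) + 2) * Lam))) :=
    mul_le_mul_of_nonneg_left h2 hm0.le
  have h6 : (m : ℝ) * p * Lam * (10 ^ 16 * ((t : ℝ) + 2)) ≤ m * p * Lam * Lam ^ 2 :=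
    mul_le_mul_of_nonneg_left h4 (by positivity)
  nlinarith

/-- class K -/
lemma hK7 (g j0 a2 p0 : ℕ) (hg : ((g : ℝ) - 1) * (Lam ^ 3 * m) ≤ 72 * n)
    (hp : (n : ℝ) ≤ p0 * (4000 * ((t + 1) * Lam + 1)))
    (hj0 : (m / 2 : ℝ) ≤ j0) (ha2 : (a2 : ℝ) ≤ m / 100) :
    (Lam : ℝ) ^ 2 * n + ((Lam + 1 : ℕ) : ℝ) + 2 + ((m : ℝ) - j0) * (1 / (Lam : ℝ) ^ 3 * n)
      + m * (((4 * (g + 2) : ℕ) : ℝ) + 1) + (((6 * (t + 1) * A : ℕ) : ℝ) + 4) * n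
      ≤ p0 * ((j0 : ℝ) / 2 - a2) := by
  have hD : 1 / (Lam : ℝ) ^ 3 * n = n / Lam ^ 3 := by ring
  rw [hD]
  have h1 := P.nlU
  have h2 := P.lU
  have h3 := P.aU
  have h4 := P.nU
  have h5 := P.mU
  have h6 := P.oneU
  have h7 := P.mdn
  have hT := P.TR
  have hDU := P.dnU
  have hm0 := P.m0
  have hr := P.mrho g hg
  have hpU := P.pU p0 hp
  have hD0 : (0 : ℝ) ≤ n / Lam ^ 3 := by positivity
  set U : ℝ := m * n / Lam ^ 4 with hU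
  set D : ℝ := (n : ℝ) / Lam ^ 3 with hDdef
  have h8 := P.TU U (by linarith)
  have h9 : 10 ^ 8 * 3 * U ≤ 10 ^ 8 * ((t : ℝ) + 2) * U :=
    mul_le_mul_of_nonneg_right (by linarith) (by linarith)
  have hp0 : (0 : ℝ) ≤ p0 := Nat.cast_nonneg _
  have h10 : ((m : ℝ) - j0) * D ≤ m * D := mul_le_mul_of_nonneg_right (by
    have : (0 : ℝ) ≤ j0 := Nat.cast_nonneg _
    linarith) hD0
  have h11 : (p0 : ℝ) * (m / 5) ≤ p0 * ((j0 : ℝ) / 2 - a2) :=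
    mul_le_mul_of_nonneg_left (by linarith) hp0
  push_cast at *
  nlinarith

/-- class N -/
lemma hN7 (g j0 b c p p1 : ℕ) (hg : ((g : ℝ) - 1) * (Lam ^ 3 * m) ≤ 72 * n)
    (hp : (n : ℝ) ≤ p * (4000 * ((t + 1) * Lam + 1)))
    (hp' : (p : ℝ) * (2000 * ((t + 1) * Lam + 1)) ≤ n)
    (hj0 : (m / 2 : ℝ) ≤ j0) (hb : (b : ℝ) ≤ m / 500) (hc : (c : ℝ) ≤ m / 16)
    (hp1 : (p : ℝ) / 16 ≤ p1 - ((4 * (g + 2) : ℕ) : ℝ)) :
    (Lam : ℝ) ^ 2 * n + ((Lam + 1 : ℕ) : ℝ) + 2 + ((m : ℝ) - j0) * (1 / (Lam : ℝ) ^ 3 * n)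
      + m * (((4 * (g + 2) : ℕ) : ℝ) + 1) + (((6 * (t + 1) * A : ℕ) : ℝ) + 2) * n
      + 2 * p * ((((t + 1) * Lam + 1 : ℕ) : ℝ) + 1)
      ≤ (p1 - ((4 * (g + 2) : ℕ) : ℝ)) * ((j0 : ℝ) - c - 5 * b) := by
  have hD : 1 / (Lam : ℝ) ^ 3 * n = n / Lam ^ 3 := by ring
  rw [hD]
  have h1 := P.nlU
  have h2 := P.lU
  have h3 := P.aU
  have h4 := P.nU
  have h5 := P.mU
  have h6 := P.oneU
  have h7 := P.mdn
  have hT := P.TR
  have hDU := P.dnU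
  have hm0 := P.m0
  have hr := P.mrho g hg
  have hpU := P.pU p hp
  have hD0 : (0 : ℝ) ≤ n / Lam ^ 3 := by positivity
  set U : ℝ := m * n / Lam ^ 4 with hU
  set D : ℝ := (n : ℝ) / Lam ^ 3 with hDdef
  have h8 := P.TU U (by linarith)
  have h9 : 10 ^ 8 * 3 * U ≤ 10 ^ 8 * ((t : ℝ) + 2) * U :=
    mul_le_mul_of_nonneg_right (by linarith) (by linarith)
  have hp0 : (0 : ℝ) ≤ p := Nat.cast_nonneg _
  have h10 : ((m : ℝ) - j0) * D ≤ m * D := mul_le_mul_of_nonneg_right (by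
    have : (0 : ℝ) ≤ j0 := Nat.cast_nonneg _
    linarith) hD0
  have h11 : (p : ℝ) / 16 * (m * (2 / 5)) ≤ (p1 - ((4 * (g + 2) : ℕ) : ℝ)) * ((j0 : ℝ) - c - 5 * b) := by
    refine mul_le_mul hp1 (by linarith) (by positivity) (le_trans (by positivity) hp1)
  have h12 : 2 * (p : ℝ) * ((((t + 1) * Lam + 1 : ℕ) : ℝ) + 1) ≤ n := by
    push_cast
    have h13 : (1 : ℝ) ≤ ((t : ℝ) + 1) * Lam := by
      have := P.l8
      nlinarith
    nlinarith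
  push_cast at *
  nlinarith

/-- `D ≥ A ^ t Lam` where `D = n / Lam ^ 3` -/
lemma D_ge : (A : ℝ) ^ t * Lam ≤ n / Lam ^ 3 := by
  rw [le_div_iff₀ (pow_pos P.l0 3)]
  have h1 : (A : ℝ) ^ t * Lam * Lam ^ 3 = (A : ℝ) ^ t * Lam ^ 4 := by ring
  rw [h1]
  exact P.nR

lemma A_le : (A : ℝ) ≤ (A : ℝ) ^ t := by
  have h1 : (A : ℝ) ^ 1 ≤ (A : ℝ) ^ t := pow_le_pow_right₀ P.AR P.ht
  rwa [pow_one] at h1

lemma p_ge (p : ℕ) (hp : (n : ℝ) ≤ p * (4000 * ((t + 1) * Lam + 1))) :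
    (10 : ℝ) ^ 10 * (n / Lam ^ 3) ≤ p := by
  have h1 := P.pU p hp
  rw [← P.mdn] at h1
  have h2 : (m : ℝ) * (10 ^ 10 * (n / Lam ^ 3)) ≤ m * p := by linarith
  exact le_of_mul_le_mul_left h2 P.m0

/-- `rho ≤ 13 A ^ t` -/
lemma rho13 (g : ℕ) (hg : ((g : ℝ) - 1) * (Lam ^ 3 * m) ≤ 72 * n) :
    ((4 * (g + 2) : ℕ) : ℝ) ≤ 13 * (A : ℝ) ^ t := by
  have hl := P.l0
  have hm0 := P.m0
  have hr := P.mrho g hg
  have h1 : (n : ℝ) / Lam ^ 3 * 288 ≤ m * (A : ℝ) ^ t := by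
    rw [div_mul_eq_mul_div, div_le_iff₀ (pow_pos hl 3)]
    have h2 := P.nR2
    have h3 := P.mR
    have h5 : (0 : ℝ) ≤ (A : ℝ) ^ t := by positivity
    have h4 : (A : ℝ) ^ (t + 1) * Lam ^ 8 ≤ 2 * m * A ^ t := by
      rw [pow_succ]
      nlinarith
    have h6 : (1152 : ℝ) ≤ Lam ^ 8 := by
      have h8 := P.lpow (i := 1) (j := 8) (by norm_num)
      rw [pow_one] at h8
      have h9 := P.l8
      linarith
    have h7 : (A : ℝ) ^ (t + 1) * 1152 ≤ (A : ℝ) ^ (t + 1) * Lam ^ 8 :=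
      mul_le_mul_of_nonneg_left h6 (by positivity)
    have h8 : (m : ℝ) * A ^ t * 1 ≤ m * A ^ t * Lam ^ 3 :=
      mul_le_mul_of_nonneg_left (one_le_pow₀ (by have := P.l8; linarith)) (by positivity)
    linarith
  have h2 : (1 : ℝ) ≤ (A : ℝ) ^ t := one_le_pow₀ P.AR
  have h3 : (m : ℝ) * ((4 * (g + 2) : ℕ) : ℝ) ≤ m * (13 * (A : ℝ) ^ t) := by nlinarith
  exact le_of_mul_le_mul_left h3 hm0

lemma mN : 10 ^ 7 * (t + 2) * (A * Lam ^ 7) ≤ m := by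
  have h1 := P.hm
  have h2 := P.LT
  have h3 : A * Lam ^ 7 * (10 ^ 8 * (t + 2)) ≤ A * Lam ^ 7 * Lam := Nat.mul_le_mul_left _ h2
  have h4 : A * Lam ^ 7 * Lam = A * Lam ^ 8 := by ring
  rw [h4] at h3
  have h5 : A * Lam ^ 7 * (10 ^ 8 * (t + 2)) = 10 * (10 ^ 7 * (t + 2) * (A * Lam ^ 7)) := by ring
  omega

lemma rho_lt (g N : ℕ) (hg : ((g : ℝ) - 1) * (Lam ^ 3 * m) ≤ 72 * n) (hN : (A * Lam ^ 7) * t ≤ N) :
    4 * (g + 2) < N.choose t := by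
  have h1 := P.rho13 g hg
  have h2 : (A * Lam ^ 7) ^ t ≤ N.choose t := pow_le_choose7 hN
  have h3 : (((A * Lam ^ 7) ^ t : ℕ) : ℝ) ≤ ((N.choose t : ℕ) : ℝ) := by exact_mod_cast h2
  have h4 : (13 : ℝ) * (A : ℝ) ^ t < (((A * Lam ^ 7) ^ t : ℕ) : ℝ) := by
    push_cast
    rw [mul_pow]
    have h5 : (Lam : ℝ) ≤ ((Lam : ℝ) ^ 7) ^ t := by
      have h6 : (Lam : ℝ) ≤ (Lam : ℝ) ^ 7 := by
        have h8 := P.lpow (i := 1) (j := 7) (by norm_num)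
        rwa [pow_one] at h8
      refine h6.trans ?_
      have h7 : ((Lam : ℝ) ^ 7) ^ 1 ≤ ((Lam : ℝ) ^ 7) ^ t :=
        pow_le_pow_right₀ (one_le_pow₀ (by have := P.l8; linarith)) P.ht
      rwa [pow_one] at h7
    have h6 := P.l8
    have h7 : (0 : ℝ) < (A : ℝ) ^ t := pow_pos (by have := P.AR; linarith) t
    nlinarith
  have h5 : ((4 * (g + 2) : ℕ) : ℝ) < ((N.choose t : ℕ) : ℝ) := by linarith
  exact_mod_cast h5

lemma pN (p : ℕ) (hp : (n : ℝ) ≤ p * (4000 * ((t + 1) * Lam + 1))) :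
    1000 * (A : ℝ) ^ t ≤ p := by
  have h1 := P.p_ge p hp
  have h2 := P.D_ge
  have h3 := P.l8
  have h4 : (0 : ℝ) < (A : ℝ) ^ t := pow_pos (by have := P.AR; linarith) t
  nlinarith

/-- `p / 16 ≤ p1 - rho` for `p1 = p / 8` -/
lemma p1_ge (g p : ℕ) (hg : ((g : ℝ) - 1) * (Lam ^ 3 * m) ≤ 72 * n)
    (hp : (n : ℝ) ≤ p * (4000 * ((t + 1) * Lam + 1))) :
    (p : ℝ) / 16 ≤ ((p / 8 : ℕ) : ℝ) - ((4 * (g + 2) : ℕ) : ℝ) := by
  have h1 := P.pN p hp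
  have h2 := P.rho13 g hg
  have h3 : (1 : ℝ) ≤ (A : ℝ) ^ t := one_le_pow₀ P.AR
  have h4 : (p : ℝ) ≤ 8 * ((p / 8 : ℕ) : ℝ) + 7 := by
    have h5 : p ≤ 8 * (p / 8) + 7 := by omega
    exact_mod_cast h5
  linarith

lemma k0_le (p : ℕ) (hp' : (p : ℝ) * (2000 * ((t + 1) * Lam + 1)) ≤ n) :
    p / (2 * A ^ t) ≤ A := by
  have hA := P.hA
  have h1 : p ≤ n := by
    have h2 : (p : ℝ) ≤ n := by
      have h3 : (1 : ℝ) ≤ 2000 * (((t : ℝ) + 1) * Lam + 1) := by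
        have h4 := P.l0
        have h5 : (0 : ℝ) ≤ ((t : ℝ) + 1) * Lam := by positivity
        linarith
      have h4 : (0 : ℝ) ≤ p := Nat.cast_nonneg _
      nlinarith
    exact_mod_cast h2
  have h2 := P.hn2
  refine Nat.div_le_of_le_mul ?_
  rw [pow_succ] at h2
  calc p ≤ n := h1
    _ ≤ 2 * (A ^ t * A) := h2
    _ = 2 * A ^ t * A := by ring

/-- the condition for the structured pairs -/
lemma rho_str (g p : ℕ) (hg : ((g : ℝ) - 1) * (Lam ^ 3 * m) ≤ 72 * n)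
    (hp : (n : ℝ) ≤ p * (4000 * ((t + 1) * Lam + 1)))
    (hp' : (p : ℝ) * (2000 * ((t + 1) * Lam + 1)) ≤ n) :
    4 * (g + 2) < p / (2 * A ^ t) * (m / 16 - p / (2 * A ^ t) - (t - 1)).choose (t - 1) := by
  have hA := P.hA
  have hk := P.k0_le p hp'
  obtain ⟨k0, hk0⟩ : ∃ k0, k0 = p / (2 * A ^ t) := ⟨_, rfl⟩
  rw [← hk0] at hk ⊢
  obtain ⟨s, hs⟩ : ∃ s, t = s + 1 := ⟨t - 1, by have := P.ht; omega⟩
  have hs1 : t - 1 = s := by omega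
  rw [hs1]
  have hA0 : (0 : ℝ) < A := by have := P.AR; linarith
  have h1 : A * s ≤ m / 16 - k0 - s := by
    have h2 := P.mN
    have h3 : A * s ≤ (t + 2) * (A * Lam ^ 7) := by
      have h4 : 1 ≤ Lam ^ 7 := Nat.one_le_pow _ _ P.L1
      calc A * s = s * (A * 1) := by ring
        _ ≤ (t + 2) * (A * Lam ^ 7) := Nat.mul_le_mul (by omega) (Nat.mul_le_mul_left _ h4)
    have h4 : s ≤ A * s := Nat.le_mul_of_pos_left _ hA
    have h5 : A ≤ (t + 2) * (A * Lam ^ 7) := by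
      have h4 : 1 ≤ Lam ^ 7 := Nat.one_le_pow _ _ P.L1
      calc A = 1 * (A * 1) := by ring
        _ ≤ (t + 2) * (A * Lam ^ 7) := Nat.mul_le_mul (by omega) (Nat.mul_le_mul_left _ h4)
    have h6 : 10 ^ 7 * (t + 2) * (A * Lam ^ 7) = 10 ^ 7 * ((t + 2) * (A * Lam ^ 7)) := by ring
    omega
  have h2 : A ^ s ≤ (m / 16 - k0 - s).choose s := pow_le_choose7 h1
  refine lt_of_lt_of_le ?_ (Nat.mul_le_mul_left k0 h2)
  have h3 : ((4 * (g + 2) : ℕ) : ℝ) < ((k0 * A ^ s : ℕ) : ℝ) := by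
    -- `p ≤ 2 A ^ t (k0 + 1)`
    have h4 : p ≤ 2 * A ^ t * (k0 + 1) := by
      rw [hk0]
      have h5 := Nat.lt_mul_div_succ p (b := 2 * A ^ t) (by positivity)
      exact h5.le
    have h5 : (p : ℝ) ≤ 2 * (A : ℝ) ^ t * (k0 + 1) := by exact_mod_cast h4
    have h6 := P.pN p hp
    have h7 : (A : ℝ) ^ t = A ^ s * A := by rw [hs, pow_succ]
    have h8 : (p : ℝ) ≤ 4 * A * (k0 * A ^ s) := by
      rw [h7] at h5 h6
      nlinarith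
    -- `4 A rho < p`
    have h9 := P.mrho g hg
    have h10 := P.p_ge p hp
    have h11 := P.D_ge
    have h12 := P.A_le
    have h13 := P.l8
    have hm0 := P.m0
    have hAm : (A : ℝ) ≤ m := by exact_mod_cast P.Am
    set D : ℝ := (n : ℝ) / Lam ^ 3 with hD
    have hD1 : (10 : ℝ) ^ 8 * A ≤ D := by
      have h14 : (A : ℝ) * 10 ^ 8 ≤ (A : ℝ) ^ t * Lam :=
        mul_le_mul h12 h13 (by positivity) (by positivity)
      linarith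
    have h15 : (m : ℝ) * (4 * A * ((4 * (g + 2) : ℕ) : ℝ)) < m * p := by
      have h16 : (4 * A : ℝ) * (m * ((4 * (g + 2) : ℕ) : ℝ)) ≤ (4 * A : ℝ) * (288 * D + 12 * m) :=
        mul_le_mul_of_nonneg_left h9 (by positivity)
      have h17 : (A : ℝ) * D ≤ m * D := mul_le_mul_of_nonneg_right hAm (by linarith)
      have h18 : (m : ℝ) * (10 ^ 10 * D) ≤ m * p := mul_le_mul_of_nonneg_left h10 hm0.le
      have h19 : (m : ℝ) * (10 ^ 8 * A) ≤ m * D := mul_le_mul_of_nonneg_left hD1 hm0.le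
      have h20 : (0 : ℝ) < m * A := by positivity
      nlinarith
    have h16 := lt_of_mul_lt_mul_left h15 hm0.le
    have h17 : (4 * A : ℝ) * ((4 * (g + 2) : ℕ) : ℝ) < (4 * A : ℝ) * (k0 * A ^ s) := by linarith
    have h18 := lt_of_mul_lt_mul_left h17 (by positivity)
    push_cast at *
    exact h18
  exact_mod_cast h3

lemma kap7 (p : ℕ) (hp : (n : ℝ) ≤ p * (4000 * ((t + 1) * Lam + 1))) :
    A ^ t * (p / (2 * A ^ t)) + 2 * (p / 8) < p := by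
  have h1 := P.pN p hp
  have h2 : (1 : ℝ) ≤ (A : ℝ) ^ t := one_le_pow₀ P.AR
  have h3 : 1 ≤ p := by
    have : (1 : ℝ) ≤ p := by linarith
    exact_mod_cast this
  have h4 : 2 * A ^ t * (p / (2 * A ^ t)) ≤ p := Nat.mul_div_le p (2 * A ^ t)
  have h5 : 2 * A ^ t * (p / (2 * A ^ t)) = 2 * (A ^ t * (p / (2 * A ^ t))) := by ring
  omega

/-- the condition of row E -/
lemma hpar7 (g : ℕ) (hg : ((g : ℝ) - 1) * (Lam ^ 3 * m) ≤ 72 * n) :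
    ((2 * (t : ℝ) + 3) * (1 / Lam ^ 3) + 1 / Lam ^ 3) * n
      + 40 * (((t + 1) * Lam + 1 : ℕ) : ℝ) * ((1 / (Lam : ℝ) ^ 3 + 8 / Lam ^ 3) * n + (g + 1))
      < n / (200 * (((t + 1) * Lam + 1 : ℕ) : ℝ)) := by
  have hl := P.l0
  have hT := P.TR
  have hm0 := P.m0
  have h8 := P.l8
  have hr := P.mrho g hg
  have hm7 := P.m7
  have hDg := P.D_ge
  have hn0 := P.n0
  have h1 : ((2 * (t : ℝ) + 3) * (1 / Lam ^ 3) + 1 / Lam ^ 3) * n = (2 * t + 4) * (n / Lam ^ 3) := by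
    ring
  have h2 : (1 / (Lam : ℝ) ^ 3 + 8 / Lam ^ 3) * n = 9 * (n / Lam ^ 3) := by ring
  rw [h1, h2]
  have hnD : (n : ℝ) = Lam ^ 3 * (n / Lam ^ 3) := by
    field_simp
  set D : ℝ := (n : ℝ) / Lam ^ 3 with hD
  have hA1 : (1 : ℝ) ≤ (A : ℝ) ^ t := one_le_pow₀ P.AR
  have hDl : (Lam : ℝ) ≤ D := by
    have h3 : 1 * (Lam : ℝ) ≤ (A : ℝ) ^ t * Lam := mul_le_mul_of_nonneg_right hA1 hl.le
    linarith
  have hm1000 : (1000 : ℝ) ≤ m := by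
    have h3 := P.lpow (i := 1) (j := 7) (by norm_num)
    rw [pow_one] at h3
    linarith
  have hg1 : (g : ℝ) + 1 ≤ D := by
    have h3 : (m : ℝ) * (g + 1) ≤ m * D := by
      push_cast at hr
      nlinarith
    exact le_of_mul_le_mul_left h3 hm0
  have hL : ((((t + 1) * Lam + 1 : ℕ) : ℝ)) ≤ ((t : ℝ) + 2) * Lam := by
    push_cast
    nlinarith
  have hL0 : (0 : ℝ) < (((t + 1) * Lam + 1 : ℕ) : ℝ) := by positivity
  set L : ℝ := (((t + 1) * Lam + 1 : ℕ) : ℝ) with hLdef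
  rw [lt_div_iff₀ (by positivity)]
  have hD0 : (0 : ℝ) < D := lt_of_lt_of_le hl hDl
  have hL1 : (1 : ℝ) ≤ L := by
    rw [hLdef]
    exact_mod_cast Nat.le_add_left 1 _
  have h3 : (2 * t + 4) * D + 40 * L * (9 * D + (g + 1)) ≤ 402 * (((t : ℝ) + 2) * Lam) * D := by
    have h4 : 40 * L * (9 * D + (g + 1)) ≤ 40 * (((t : ℝ) + 2) * Lam) * (10 * D) :=
      mul_le_mul (by linarith) (by linarith) (by positivity) (by positivity)
    have h5 : (2 * t + 4) * D ≤ 2 * (((t : ℝ) + 2) * Lam) * D := by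
      refine mul_le_mul_of_nonneg_right ?_ hD0.le
      nlinarith
    linarith
  have h4 : ((2 * t + 4) * D + 40 * L * (9 * D + (g + 1))) * (200 * L)
      ≤ (402 * (((t : ℝ) + 2) * Lam) * D) * (200 * (((t : ℝ) + 2) * Lam)) :=
    mul_le_mul h3 (by linarith) (by positivity) (by positivity)
  refine lt_of_le_of_lt h4 ?_
  have h5 := P.lR
  have h6 : 80400 * ((t : ℝ) + 2) ^ 2 < Lam := by
    have h7 : ((t : ℝ) + 2) ^ 2 ≤ ((t : ℝ) + 2) ^ 3 := pow_le_pow_right₀ (by linarith) (by norm_num)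
    have h8 : (9 : ℝ) ≤ ((t : ℝ) + 2) ^ 2 := by nlinarith
    linarith
  have h7 : (402 * (((t : ℝ) + 2) * Lam) * D) * (200 * (((t : ℝ) + 2) * Lam))
      = 80400 * ((t : ℝ) + 2) ^ 2 * (Lam ^ 2 * D) := by ring
  have h8 : (n : ℝ) = Lam * (Lam ^ 2 * D) := by
    rw [hnD]
    ring
  rw [h7, h8]
  exact mul_lt_mul_of_pos_right h6 (by positivity)

end Par7

end RMH
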