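import Pool.Agent.RM7.Par2
import Pool.Agent.RMX.NSE44

/-! The number of families without structured pairs (helper7) -/

set_option autoImplicit false
set_option linter.unusedSectionVars false

open scoped BigOperators
open Classical

namespace RMH

namespace Par7

variable {t Lam m n A : ℕ} (P : Par7 t Lam m n A)

include P

/-- the count with all parameters chosen -/
theorem count7 : NotStr44 t n m (A ^ t) ((Lam : ℝ) ^ 2 * n) := by
  have hl := P.l0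
  have hl8 := P.l8
  have hn0 := P.n0
  have hm0 := P.m0
  have hm7 := P.m7
  have hT := P.TR
  have hnN : 0 < n := by exact_mod_cast hn0
  have hmN : 0 < m := by exact_mod_cast hm0
  have hLamN : 0 < Lam := by exact_mod_cast hl
  have hmbig : 1000 * (t + 2) ≤ m := by
    have h1 : (1000 * ((t : ℝ) + 2)) ≤ m := by
      have h2 := P.lpow (i := 1) (j := 7) (by norm_num)
      rw [pow_one] at h2
      have h3 := P.lTR
      linarith
    exact_mod_cast h1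
  have hmN2 := P.mN
  -- `g`
  obtain ⟨g, hgdef⟩ : ∃ g, g = 72 * n / (Lam ^ 3 * m) + 1 := ⟨_, rfl⟩
  have hq : 0 < Lam ^ 3 * m := Nat.mul_pos (Nat.pow_pos hLamN) hmN
  have hg1 : 72 * (n : ℝ) ≤ g * (Lam ^ 3 * m) := by
    have h1 := Nat.lt_mul_div_succ (72 * n) hq
    rw [hgdef]
    have h2 : 72 * n ≤ (72 * n / (Lam ^ 3 * m) + 1) * (Lam ^ 3 * m) := by
      rw [Nat.mul_comm (72 * n / (Lam ^ 3 * m) + 1)]
      exact h1.le
    exact_mod_cast h2
  have hg2 : ((g : ℝ) - 1) * (Lam ^ 3 * m) ≤ 72 * n := by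
    have h1 := Nat.div_mul_le_self (72 * n) (Lam ^ 3 * m)
    have h2 : ((72 * n / (Lam ^ 3 * m) : ℕ) : ℝ) * (Lam ^ 3 * m) ≤ 72 * n := by exact_mod_cast h1
    have h3 : (g : ℝ) - 1 = ((72 * n / (Lam ^ 3 * m) : ℕ) : ℝ) := by
      rw [hgdef]
      push_cast
      ring
    rw [h3]
    exact h2
  have hg0 : (0 : ℝ) < g := by
    rw [hgdef]
    positivity
  -- `p`
  obtain ⟨L, hLdef⟩ : ∃ L, L = (t + 1) * Lam + 1 := ⟨_, rfl⟩
  have hLR : (L : ℝ) = ((t : ℝ) + 1) * Lam + 1 := by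
    rw [hLdef]
    push_cast
    ring
  have hL0 : 0 < L := by
    rw [hLdef]
    exact Nat.succ_pos _
  obtain ⟨p, hpdef⟩ : ∃ p, p = n / (2000 * L) := ⟨_, rfl⟩
  have hp' : (p : ℝ) * (2000 * ((t + 1) * Lam + 1)) ≤ n := by
    have h1 := Nat.div_mul_le_self n (2000 * L)
    rw [← hpdef] at h1
    have h2 : (p : ℝ) * (2000 * L) ≤ n := by exact_mod_cast h1
    rw [hLR] at h2
    exact h2
  have hp : (n : ℝ) ≤ p * (4000 * ((t + 1) * Lam + 1)) := by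
    have h1 := Nat.lt_mul_div_succ n (show 0 < 2000 * L by omega)
    rw [← hpdef] at h1
    have h2 : (n : ℝ) < (2000 * L) * (p + 1) := by exact_mod_cast h1
    have h3 : (4000 : ℝ) * L ≤ n := by
      have h4 := P.n4
      have h5 : (L : ℝ) ≤ ((t : ℝ) + 2) * Lam := by
        rw [hLR]
        nlinarith
      have h6 : 4000 * (((t : ℝ) + 2) * Lam) ≤ (Lam : ℝ) ^ 4 := by
        have h7 := P.lpow (i := 2) (j := 4) (by norm_num)
        have h8 := P.lTR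
        nlinarith
      linarith
    have h4 : (L : ℝ) ≤ L * p := by nlinarith
    rw [← hLR]
    nlinarith
  have hpN : 2000 * L * p ≤ n := by
    rw [hpdef]
    exact Nat.mul_div_le n (2000 * L)
  have hLp : 0 ≤ L * p := Nat.zero_le _
  -- `j0, j1, jw`
  obtain ⟨jw, hjwdef⟩ : ∃ jw, jw = m / (2 * (t + 2)) := ⟨_, rfl⟩
  have hjwle : 2 * (t + 2) * jw ≤ m := by
    rw [hjwdef]
    exact Nat.mul_div_le m (2 * (t + 2))
  have hjw6 : 6 * jw ≤ m := by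
    have h1 : 6 * jw ≤ 2 * (t + 2) * jw := Nat.mul_le_mul_right _ (by have := P.ht; omega)
    exact h1.trans hjwle
  have hjwR : (m : ℝ) ≤ jw * (4 * ((t : ℝ) + 2)) := by
    have h1 := Nat.lt_mul_div_succ m (show 0 < 2 * (t + 2) by omega)
    rw [← hjwdef] at h1
    have h2 : 1 ≤ jw := by
      rw [hjwdef]
      exact (Nat.one_le_div_iff (by omega)).2 (by omega)
    have h3 : 2 * (t + 2) * 1 ≤ 2 * (t + 2) * jw := Nat.mul_le_mul_left _ h2
    have h4 : m ≤ jw * (4 * (t + 2)) := by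
      have h5 : 2 * (t + 2) * (jw + 1) = 2 * (t + 2) * jw + 2 * (t + 2) * 1 := by ring
      have h6 : jw * (4 * (t + 2)) = 2 * (2 * (t + 2) * jw) := by ring
      omega
    exact_mod_cast h4
  obtain ⟨j0, hj0def⟩ : ∃ j0, j0 = (m + 1) / 2 := ⟨_, rfl⟩
  obtain ⟨j1, hj1def⟩ : ∃ j1, j1 = 3 * m / 4 := ⟨_, rfl⟩
  have hj0a : (m / 2 : ℝ) ≤ j0 := by
    have h1 : m ≤ 2 * j0 := by omega
    have h2 : (m : ℝ) ≤ 2 * j0 := by exact_mod_cast h1
    linarith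
  have hj0b : (j0 : ℝ) ≤ m / 2 + 1 := by
    have h1 : 2 * j0 ≤ m + 2 := by omega
    have h2 : 2 * (j0 : ℝ) ≤ m + 2 := by exact_mod_cast h1
    linarith
  have hj1a : (3 * m / 4 - 1 : ℝ) ≤ j1 := by
    have h1 : 3 * m ≤ 4 * j1 + 4 := by omega
    have h2 : 3 * (m : ℝ) ≤ 4 * j1 + 4 := by exact_mod_cast h1
    linarith
  have hj1b : (j1 : ℝ) ≤ m := by
    have h1 : j1 ≤ m := by omega
    exact_mod_cast h1
  have hth : 9 * ((n : ℝ) / Lam ^ 3) / g * g = (1 / (Lam : ℝ) ^ 3 + 8 / (Lam : ℝ) ^ 3) * n := by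
    rw [div_mul_cancel₀ _ hg0.ne']
    ring
  have hALt : ∀ k, (A * Lam ^ 7) * t * k ≤ k * ((t + 2) * (A * Lam ^ 7)) := fun k => by
    calc (A * Lam ^ 7) * t * k = k * (t * (A * Lam ^ 7)) := by ring
      _ ≤ _ := Nat.mul_le_mul_left _ (Nat.mul_le_mul_right _ (by omega))
  have hAL0 : t + 2 ≤ (t + 2) * (A * Lam ^ 7) :=
    Nat.le_mul_of_pos_right _ (Nat.mul_pos P.hA (Nat.pow_pos hLamN))
  have hmN3 : 10 ^ 7 * ((t + 2) * (A * Lam ^ 7)) ≤ m := by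
    have h1 : 10 ^ 7 * (t + 2) * (A * Lam ^ 7) = 10 ^ 7 * ((t + 2) * (A * Lam ^ 7)) := by ring
    omega
  have ha2 : (A * Lam ^ 7) * t ≤ m / 100 - t := by
    have h1 := hALt 1
    omega
  have hb : (A * Lam ^ 7) * t ≤ m / 500 := by
    have h1 := hALt 1
    omega
  have hdivR : ∀ k : ℕ, 0 < k → ((m / k : ℕ) : ℝ) ≤ (m : ℝ) / k := fun k hk => Nat.cast_div_le
  have h100 : ((m / 100 : ℕ) : ℝ) ≤ (m : ℝ) / 100 := by exact_mod_cast hdivR 100 (by norm_num)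
  have h500 : ((m / 500 : ℕ) : ℝ) ≤ (m : ℝ) / 500 := by exact_mod_cast hdivR 500 (by norm_num)
  have h16 : ((m / 16 : ℕ) : ℝ) ≤ (m : ℝ) / 16 := by exact_mod_cast hdivR 16 (by norm_num)
  have hp1 := P.p1_ge g p hg2 hp
  have hI := P.hI7 jw hjwR
  have hIII := P.hIII7
  have hD := P.hD7 g j0 j1 _ hg1 hth hj0b hj1a hj1b
  have hK := P.hK7 g j0 (m / 100) p hg2 hp hj0a h100
  have hN := P.hN7 g j0 (m / 500) (m / 16) p (p / 8) hg2 hp hp' hj0a h500 h16 hp1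
  have hpar := P.hpar7 g hg2
  refine nonstr44 t (6 * (t + 1) * A) (m / 100) (m / 500) (m / 16) (p / (2 * A ^ t)) p p (p / 8) g
    ((t + 1) * Lam + 1) (Lam + 1) j0 j1 jw (A ^ t) m n (1 / (Lam : ℝ) ^ 3) (8 / (Lam : ℝ) ^ 3)
    (1 / (Lam : ℝ) ^ 3) (9 * ((n : ℝ) / Lam ^ 3) / g) ((Lam : ℝ) ^ 2 * n) P.ht hnN
    (Nat.le_add_left 1 _) P.n_le ?_ (by positivity) (by positivity) (by positivity) (by positivity)
    hth P.fib (by omega) (by omega) (by omega) (by omega) ?_ (P.rho_lt g _ hg2 ha2)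
    (P.rho_lt g _ hg2 hb) ?_ (P.rho_str g p hg2 hp hp') (P.kap7 p hp) ?_ ?_ ?_ ?_ ?_ ?_ ?_ ?_
  · have h1 := P.hmL
    have h2 : 1 ≤ 2 ^ Lam := Nat.one_le_two_pow
    rw [pow_succ]
    omega
  · refine le_trans ?_ hjwle
    exact Nat.mul_le_mul_right _ (by omega)
  · have h1 : ((4 * (g + 2) : ℕ) : ℝ) ≤ ((p / 8 : ℕ) : ℝ) := by
      have h2 : (0 : ℝ) ≤ p := Nat.cast_nonneg _
      linarith
    exact_mod_cast h1
  · rw [← hLdef]
    have h1 : 400 * L * p ≤ 2000 * L * p :=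
      Nat.mul_le_mul_right _ (Nat.mul_le_mul_right _ (by norm_num))
    exact h1.trans hpN
  · rw [← hLdef]
    have h1 : 1200 * L * p ≤ 2000 * L * p :=
      Nat.mul_le_mul_right _ (Nat.mul_le_mul_right _ (by norm_num))
    exact h1.trans hpN
  · exact hpar
  · exact hI
  · exact hIII
  · linarith
  · push_cast at hK ⊢
    exact hK
  · push_cast at hN ⊢
    exact hN

end Par7

/-- **(PAR)** the number of injective null families without structured pairs -/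
theorem nonstr_count (t : ℕ) (ht : 1 ≤ t) : ∃ Lam0 : ℕ, ∀ Lam m n A : ℕ, Lam0 ≤ Lam → 1 ≤ A →
    m ≤ 2 ^ Lam → A * Lam ^ 8 ≤ 2 * m → A ^ t * Lam ^ 4 ≤ n → n ≤ 2 * A ^ (t + 1) →
    (cnt (fun x : Fin n → (Fin m → ZMod 2) =>
      Function.Injective x ∧ Null (t + 2) x ∧ ¬ Str (A ^ t) x) : ℝ)
      ≤ P2 ((m : ℝ) * n / 2 - (Lam : ℝ) ^ 2 * n) :=
  ⟨10 ^ 8 * (t + 2) ^ 3, fun _ _ _ _ h1 h2 h3 h4 h5 h6 =>
    (Par7.mk ht h1 h2 h3 h4 h5 h6).count7⟩

end RMH
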