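import Pool.Agent.Helper44.HO.Count
import Pool.Agent.Helper71.HO.Hilb

/-!
# Structured families, part a: the linear algebra of the pairs

A, B vector spaces over F_2, P a finite index set of pairs, d : P → A the differences, v : P → B.
EV t d v f b = (f (d b)) (v b) for f : A →ₗ PP B t.
-/

set_option autoImplicit false
set_option linter.unusedSectionVars false

open scoped BigOperators
open Classical Module

namespace RMH

section lin

variable {P A B : Type} [Fintype P] [AddCommGroup A] [Module (ZMod 2) A] [Fintype A]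
  [AddCommGroup B] [Module (ZMod 2) B] [Fintype B]

instance : FiniteDimensional (ZMod 2) (B → ZMod 2) := inferInstance

/-- the evaluation of the functions linear in the first and of degree at most `t` in the second
variable at the pairs -/
noncomputable def EV (t : ℕ) (d : P → A) (v : P → B) :
    (A →ₗ[ZMod 2] ↥(PP B t)) →ₗ[ZMod 2] (P → ZMod 2) where
  toFun f := fun b => (f (d b) : B → ZMod 2) (v b)
  map_add' f g := by
    funext b
    simp
  map_smul' a f := by
    funext b
    simp

lemma EV_apply (t : ℕ) (d : P → A) (v : P → B) (f : A →ₗ[ZMod 2] ↥(PP B t)) (b : P) :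
    EV t d v f b = (f (d b) : B → ZMod 2) (v b) := rfl

/-- the functions `f a`, `f ∈ N` -/
noncomputable def sl {t : ℕ} (N : Submodule (ZMod 2) (A →ₗ[ZMod 2] ↥(PP B t))) (a : A) :
    Submodule (ZMod 2) ↥(PP B t) := N.map (LinearMap.applyₗ a)

/-- the codimension of `sl N a` -/
noncomputable def cod {t : ℕ} (N : Submodule (ZMod 2) (A →ₗ[ZMod 2] ↥(PP B t))) (a : A) : ℕ :=
  finrank (ZMod 2) (↥(PP B t) ⧸ sl N a)

lemma mem_sl {t : ℕ} {N : Submodule (ZMod 2) (A →ₗ[ZMod 2] ↥(PP B t))} {a : A} {s : ↥(PP B t)} :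
    s ∈ sl N a ↔ ∃ f ∈ N, f a = s := by
  unfold sl
  rw [Submodule.mem_map]
  rfl

/-- a linear map with prescribed values at independent vectors -/
lemma exists_lin {X Y κ : Type} [AddCommGroup X] [Module (ZMod 2) X] [AddCommGroup Y]
    [Module (ZMod 2) Y] {e : κ → X} (he : LinearIndependent (ZMod 2) e) (s : κ → Y) :
    ∃ f : X →ₗ[ZMod 2] Y, ∀ i, f (e i) = s i := by
  have hker : LinearMap.ker (Finsupp.linearCombination (ZMod 2) e) = ⊥ := by
    rw [LinearMap.ker_eq_bot]
    exact he
  obtain ⟨g, hg⟩ := LinearMap.exists_leftInverse_of_injective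
    (Finsupp.linearCombination (ZMod 2) e) hker
  refine ⟨(Finsupp.linearCombination (ZMod 2) s).comp g, fun i => ?_⟩
  have h1 : g (e i) = Finsupp.single i 1 := by
    have h2 := LinearMap.congr_fun hg (Finsupp.single i 1)
    simpa using h2
  rw [LinearMap.comp_apply, h1]
  simp

/-- independent directions give independent quotients -/
lemma sum_cod_le {t : ℕ} (d : P → A) (v : P → B) {κ : Type} [Fintype κ] {e : κ → A}
    (he : LinearIndependent (ZMod 2) e) :
    ∑ i, cod (LinearMap.ker (EV t d v)) (e i) ≤ finrank (ZMod 2) ↥(LinearMap.range (EV t d v)) := by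
  set N := LinearMap.ker (EV t d v) with hN
  have hq : ∀ i, Nonempty ((↥(PP B t) ⧸ sl N (e i)) ≃ₗ[ZMod 2] (Fin (cod N (e i)) → ZMod 2)) := by
    intro i
    apply FiniteDimensional.nonempty_linearEquiv_of_finrank_eq
    rw [finrank_fintype_fun_eq_card, Fintype.card_fin]
    rfl
  set Φ : (A →ₗ[ZMod 2] ↥(PP B t)) →ₗ[ZMod 2] ((Σ i, Fin (cod N (e i))) → ZMod 2) :=
    { toFun := fun f p => (hq p.1).some ((sl N (e p.1)).mkQ (f (e p.1))) p.2
      map_add' := fun f g => by
        funext p
        simp only [LinearMap.add_apply, map_add, Pi.add_apply]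
      map_smul' := fun c f => by
        funext p
        simp only [LinearMap.smul_apply, map_smul, Pi.smul_apply, RingHom.id_apply] } with hΦ
  have hsurj : Function.Surjective Φ := by
    intro w
    have h1 : ∀ i, ∃ s : ↥(PP B t), (hq i).some ((sl N (e i)).mkQ s) = fun j => w ⟨i, j⟩ := by
      intro i
      obtain ⟨s, hs⟩ := Submodule.mkQ_surjective (sl N (e i))
        ((hq i).some.symm (fun j => w ⟨i, j⟩))
      exact ⟨s, by rw [hs, LinearEquiv.apply_symm_apply]⟩
    choose s hs using h1
    obtain ⟨f, hf⟩ := exists_lin he s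
    refine ⟨f, ?_⟩
    funext p
    show (hq p.1).some ((sl N (e p.1)).mkQ (f (e p.1))) p.2 = w p
    rw [hf p.1, hs p.1]
  have hker : N ≤ LinearMap.ker Φ := by
    intro f hf
    rw [LinearMap.mem_ker]
    funext p
    show (hq p.1).some ((sl N (e p.1)).mkQ (f (e p.1))) p.2 = 0
    have h1 : (sl N (e p.1)).mkQ (f (e p.1)) = 0 := by
      rw [Submodule.mkQ_apply, Submodule.Quotient.mk_eq_zero, mem_sl]
      exact ⟨f, hf, rfl⟩
    rw [h1, map_zero, Pi.zero_apply]
  have h1 := LinearMap.finrank_range_add_finrank_ker Φ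
  have h2 := LinearMap.finrank_range_add_finrank_ker (EV t d v)
  rw [LinearMap.range_eq_top.2 hsurj, finrank_top, finrank_fintype_fun_eq_card,
    Fintype.card_sigma] at h1
  simp only [Fintype.card_fin] at h1
  rw [← hN] at h2
  have h3 := Submodule.finrank_mono hker
  omega

/-- the span of the saturated directions is small -/
lemma sat_span {t : ℕ} (d : P → A) (v : P → B) (κ : ℕ) :
    κ * finrank (ZMod 2) ↥(Submodule.span (ZMod 2)
      {a : A | κ ≤ 4 * cod (LinearMap.ker (EV t d v)) a})
      ≤ 4 * finrank (ZMod 2) ↥(LinearMap.range (EV t d v)) := by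
  obtain ⟨b, hb, hspan, hli⟩ := exists_linearIndependent (ZMod 2)
    {a : A | κ ≤ 4 * cod (LinearMap.ker (EV t d v)) a}
  rw [← hspan]
  have hfb : Fintype b := Fintype.ofFinite _
  have h1 := finrank_span_eq_card hli
  rw [Subtype.range_coe] at h1
  rw [h1]
  have h2 := sum_cod_le (t := t) d v hli
  have h3 : ∀ i : b, κ ≤ 4 * cod (LinearMap.ker (EV t d v)) (i : A) := fun i => hb i.2
  calc κ * Fintype.card b = ∑ _i : b, κ := by
        rw [Finset.sum_const, Finset.card_univ, smul_eq_mul, mul_comm]
    _ ≤ ∑ i : b, 4 * cod (LinearMap.ker (EV t d v)) (i : A) := Finset.sum_le_sum fun i _ => h3 i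
    _ = 4 * ∑ i : b, cod (LinearMap.ker (EV t d v)) (i : A) := by rw [Finset.mul_sum]
    _ ≤ _ := Nat.mul_le_mul_left 4 h2

/-- the common zeros of a space of functions -/
noncomputable def zs {t : ℕ} (M : Submodule (ZMod 2) ↥(PP B t)) : Finset B :=
  Finset.univ.filter (fun x => ∀ s ∈ M, (s : B → ZMod 2) x = 0)

lemma mem_zs {t : ℕ} {M : Submodule (ZMod 2) ↥(PP B t)} {x : B} :
    x ∈ zs M ↔ ∀ s ∈ M, (s : B → ZMod 2) x = 0 := by
  simp [zs]

/-- the zero set of a space of small codimension is small -/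
lemma card_zs (t a : ℕ) (M : Submodule (ZMod 2) ↥(PP B t))
    (hM : finrank (ZMod 2) (↥(PP B t) ⧸ M) < (a - t).choose t) : (zs M).card < 2 ^ a := by
  by_contra hcon
  push Not at hcon
  have h1 := hilbert (Aff B) one_mem_Aff (fun i j hij => Aff_sep i j hij) t a (zs M) hcon
  set ψ : ↥(PP B t) →ₗ[ZMod 2] (B → ZMod 2) := (mulC (zs M)).comp (PP B t).subtype with hψ
  have h2 : (Aff B ^ t).map (mulC (zs M)) = LinearMap.range ψ := by
    rw [hψ, LinearMap.range_comp, Submodule.range_subtype]
    rfl
  have h3 : M ≤ LinearMap.ker ψ := by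
    intro s hs
    rw [LinearMap.mem_ker]
    funext x
    show mulC (zs M) (s : B → ZMod 2) x = 0
    rw [mulC_apply]
    split_ifs with hx
    · exact mem_zs.1 hx s hs
    · rfl
  have h4 := LinearMap.finrank_range_add_finrank_ker ψ
  have h5 := Submodule.finrank_quotient_add_finrank M
  have h6 := Submodule.finrank_mono h3
  rw [h2] at h1
  omega

/-- the kernel is determined by an information set -/
lemma ker_EV_eq (t : ℕ) (d : P → A) (v : P → B) :
    ∃ J : Finset P, J.card ≤ finrank (ZMod 2) ↥(LinearMap.range (EV t d v)) ∧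
      LinearMap.ker (EV t d v) =
        LinearMap.ker (EV t (fun b : J => d b) (fun b : J => v b)) := by
  obtain ⟨J, hJ, hJ2⟩ := exists_info (LinearMap.range (EV t d v))
  refine ⟨J, hJ, ?_⟩
  apply le_antisymm
  · intro f hf
    rw [LinearMap.mem_ker] at hf ⊢
    funext b
    exact congrFun hf (b : P)
  · intro f hf
    rw [LinearMap.mem_ker] at hf ⊢
    exact hJ2 _ (LinearMap.mem_range_self _ f) (fun i hi => congrFun hf ⟨i, hi⟩)

end lin

end RMH
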