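import Pool.Agent.RM7.S6a

/-!
# Structured families, part b: the two counts for the pairs
-/

set_option autoImplicit false
set_option linter.unusedSectionVars false

open scoped BigOperators
open Classical Module

namespace RMH

section cnt2

variable {P A B C : Type} [Fintype P] [AddCommGroup A] [Module (ZMod 2) A] [Fintype A]
  [AddCommGroup B] [Module (ZMod 2) B] [Fintype B] [AddCommGroup C] [Module (ZMod 2) C] [Fintype C]

lemma card_box {P B : Type} [Fintype P] [Fintype B] (S : P → Finset B) (g : P → ℕ)
    (hS : ∀ b, (S b).card ≤ 2 ^ g b) :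
    (Finset.univ.filter (fun v : P → B => ∀ b, v b ∈ S b)).card ≤ 2 ^ (∑ b, g b) := by
  have h1 : Finset.univ.filter (fun v : P → B => ∀ b, v b ∈ S b) = Fintype.piFinset S := by
    ext v
    simp [Fintype.mem_piFinset]
  rw [h1, Fintype.card_piFinset, ← Finset.prod_pow_eq_pow_sum]
  exact Finset.prod_le_prod' fun b _ => hS b

/-- the number of unsaturated pairs outside an information set -/
lemma many_unsat {t κ k : ℕ} (d : P → A) (v : P → B)
    (hM : ∀ A' : Submodule (ZMod 2) A,
      κ * k ≤ 2 * (Finset.univ.filter (fun b : P => d b ∉ A')).card + κ * finrank (ZMod 2) A')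
    (hr : 8 * finrank (ZMod 2) ↥(LinearMap.range (EV t d v)) < κ * k) (J : Finset P)
    (hJ : J.card ≤ finrank (ZMod 2) ↥(LinearMap.range (EV t d v))) :
    κ * k ≤ 8 * (Finset.univ.filter (fun b : P => b ∉ J ∧
      4 * cod (LinearMap.ker (EV t d v)) (d b) < κ)).card := by
  set N := LinearMap.ker (EV t d v) with hN
  set ρ := finrank (ZMod 2) ↥(LinearMap.range (EV t d v)) with hρ
  have h1 := hM (Submodule.span (ZMod 2) {a : A | κ ≤ 4 * cod N a})
  have h2 := sat_span (t := t) d v κ
  rw [← hN, ← hρ] at h2
  have h3 : (Finset.univ.filter (fun b : P =>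
      d b ∉ Submodule.span (ZMod 2) {a : A | κ ≤ 4 * cod N a})).card
      ≤ J.card + (Finset.univ.filter (fun b : P => b ∉ J ∧ 4 * cod N (d b) < κ)).card := by
    rw [← Finset.card_union_of_disjoint]
    · refine Finset.card_le_card fun b hb => ?_
      rw [Finset.mem_filter] at hb
      rw [Finset.mem_union, Finset.mem_filter]
      by_cases hbJ : b ∈ J
      · exact Or.inl hbJ
      · refine Or.inr ⟨Finset.mem_univ _, hbJ, ?_⟩
        by_contra hcon
        push Not at hcon
        exact hb.2 (Submodule.subset_span hcon)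
    · rw [Finset.disjoint_left]
      intro b hb hb2
      exact (Finset.mem_filter.1 hb2).2.1 hb
  omega

/-- (case 2) few families of first halves have small rank -/
theorem count_low (t a m1 κ k τ : ℕ) (hB : Fintype.card B = 2 ^ m1) (ha : a ≤ m1)
    (hκ : κ ≤ 4 * (a - t).choose t) (d : P → A)
    (hM : ∀ A' : Submodule (ZMod 2) A,
      κ * k ≤ 2 * (Finset.univ.filter (fun b : P => d b ∉ A')).card + κ * finrank (ZMod 2) A')
    (hτ : 8 * τ ≤ κ * k) :
    cnt (fun v : P → B => 8 * finrank (ZMod 2) ↥(LinearMap.range (EV t d v)) < κ * k)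
      * 2 ^ ((m1 - a) * τ) ≤ 2 ^ Fintype.card P * 2 ^ (m1 * Fintype.card P) := by
  -- the kernel given by an information set
  set NJ : (q : (J : Finset P) × (J → B)) → Submodule (ZMod 2) (A →ₗ[ZMod 2] ↥(PP B t)) :=
    fun q => LinearMap.ker (EV t (fun b : q.1 => d b) q.2) with hNJ
  set T : (q : (J : Finset P) × (J → B)) → Finset P := fun q =>
    Finset.univ.filter (fun b : P => b ∉ q.1 ∧ 4 * cod (NJ q) (d b) < κ) with hT
  set X : (q : (J : Finset P) × (J → B)) → Finset (P → B) := fun q =>
    Finset.univ.filter (fun v : P → B => (∀ b : q.1, v b = q.2 b) ∧ κ * k ≤ 8 * (T q).card ∧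
      ∀ b ∈ T q, v b ∈ zs (sl (NJ q) (d b))) with hX
  have hcov : Finset.univ.filter (fun v : P → B =>
      8 * finrank (ZMod 2) ↥(LinearMap.range (EV t d v)) < κ * k) ⊆
      (Finset.univ : Finset ((J : Finset P) × (J → B))).biUnion X := by
    intro v hv
    have hv2 := (Finset.mem_filter.1 hv).2
    obtain ⟨J, hJ, hker⟩ := ker_EV_eq t d v
    rw [Finset.mem_biUnion]
    refine ⟨⟨J, fun b => v b⟩, Finset.mem_univ _, Finset.mem_filter.2 ⟨Finset.mem_univ _,
      fun b => rfl, ?_, ?_⟩⟩
    · have h1 := many_unsat d v hM hv2 J hJ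
      rw [hker] at h1
      exact h1
    · intro b _
      rw [mem_zs]
      intro s hs
      obtain ⟨f, hf, rfl⟩ := mem_sl.1 hs
      have h1 : f ∈ LinearMap.ker (EV t d v) := by
        rw [hker]
        exact hf
      rw [LinearMap.mem_ker] at h1
      exact congrFun h1 b
  have hone : ∀ q : (J : Finset P) × (J → B),
      (X q).card * 2 ^ ((m1 - a) * τ) * 2 ^ (m1 * q.1.card) ≤ 2 ^ (m1 * Fintype.card P) := by
    intro q
    by_cases hq : κ * k ≤ 8 * (T q).card
    · set g : P → ℕ := fun b => if b ∈ q.1 then 0 else if b ∈ T q then a else m1 with hg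
      have h1 : (X q).card ≤ 2 ^ (∑ b, g b) := by
        refine le_trans (Finset.card_le_card ?_) (card_box
          (fun b => if h : b ∈ q.1 then {q.2 ⟨b, h⟩} else if b ∈ T q then zs (sl (NJ q) (d b))
            else Finset.univ) g ?_)
        · intro v hv
          obtain ⟨-, hv1, -, hv3⟩ := Finset.mem_filter.1 hv
          rw [Finset.mem_filter]
          refine ⟨Finset.mem_univ _, fun b => ?_⟩
          by_cases hb : b ∈ q.1
          · rw [dif_pos hb, Finset.mem_singleton]
            exact hv1 ⟨b, hb⟩
          · rw [dif_neg hb]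
            by_cases hb2 : b ∈ T q
            · rw [if_pos hb2]
              exact hv3 b hb2
            · rw [if_neg hb2]
              exact Finset.mem_univ _
        · intro b
          simp only [hg]
          by_cases hb : b ∈ q.1
          · rw [dif_pos hb, if_pos hb, Finset.card_singleton, pow_zero]
          · rw [dif_neg hb, if_neg hb]
            by_cases hb2 : b ∈ T q
            · rw [if_pos hb2, if_pos hb2]
              refine (card_zs t a _ ?_).le
              have h2 := (Finset.mem_filter.1 hb2).2.2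
              unfold cod at h2
              omega
            · rw [if_neg hb2, if_neg hb2, Finset.card_univ, hB]
      have h2 : (∑ b, g b) + m1 * q.1.card + (m1 - a) * (T q).card = m1 * Fintype.card P := by
        have e1 : m1 * q.1.card = ∑ b : P, if b ∈ q.1 then m1 else 0 := by
          rw [← Finset.sum_filter, Finset.sum_const, smul_eq_mul, mul_comm]
          congr 2
          ext b
          simp
        have e2 : (m1 - a) * (T q).card = ∑ b : P, if b ∈ T q then m1 - a else 0 := by
          rw [← Finset.sum_filter, Finset.sum_const, smul_eq_mul, mul_comm]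
          congr 2
          ext b
          simp
        have e3 : m1 * Fintype.card P = ∑ _b : P, m1 := by
          rw [Finset.sum_const, Finset.card_univ, smul_eq_mul, mul_comm]
        rw [e1, e2, e3, ← Finset.sum_add_distrib, ← Finset.sum_add_distrib]
        refine Finset.sum_congr rfl fun b _ => ?_
        simp only [hg]
        by_cases hb : b ∈ q.1
        · have hb2 : b ∉ T q := fun h => (Finset.mem_filter.1 h).2.1 hb
          rw [if_pos hb, if_pos hb, if_neg hb2]
          omega
        · rw [if_neg hb, if_neg hb]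
          by_cases hb2 : b ∈ T q
          · rw [if_pos hb2, if_pos hb2]
            omega
          · rw [if_neg hb2, if_neg hb2]
            omega
      have h3 : (m1 - a) * τ ≤ (m1 - a) * (T q).card := Nat.mul_le_mul_left _ (by omega)
      calc (X q).card * 2 ^ ((m1 - a) * τ) * 2 ^ (m1 * q.1.card)
          ≤ 2 ^ (∑ b, g b) * 2 ^ ((m1 - a) * τ) * 2 ^ (m1 * q.1.card) := by gcongr
        _ = 2 ^ ((∑ b, g b) + (m1 - a) * τ + m1 * q.1.card) := by rw [pow_add, pow_add]
        _ ≤ 2 ^ (m1 * Fintype.card P) := Nat.pow_le_pow_right (by norm_num) (by omega)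
    · have : X q = ∅ := by
        rw [Finset.eq_empty_iff_forall_notMem]
        intro v hv
        exact hq (Finset.mem_filter.1 hv).2.2.1
      rw [this, Finset.card_empty, zero_mul, zero_mul]
      exact Nat.zero_le _
  rw [cnt_eq]
  calc (Finset.univ.filter (fun v : P → B =>
      8 * finrank (ZMod 2) ↥(LinearMap.range (EV t d v)) < κ * k)).card * 2 ^ ((m1 - a) * τ)
      ≤ (∑ q : (J : Finset P) × (J → B), (X q).card) * 2 ^ ((m1 - a) * τ) :=
        Nat.mul_le_mul_right _ ((Finset.card_le_card hcov).trans Finset.card_biUnion_le)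
    _ = ∑ J : Finset P, ∑ z : J → B, (X ⟨J, z⟩).card * 2 ^ ((m1 - a) * τ) := by
        rw [Finset.sum_mul, Fintype.sum_sigma]
    _ ≤ ∑ _J : Finset P, 2 ^ (m1 * Fintype.card P) := by
        refine Finset.sum_le_sum fun J _ => ?_
        have h1 : (∑ z : J → B, (X ⟨J, z⟩).card * 2 ^ ((m1 - a) * τ)) * 2 ^ (m1 * J.card)
            ≤ 2 ^ (m1 * Fintype.card P) * 2 ^ (m1 * J.card) := by
          rw [Finset.sum_mul]
          refine (Finset.sum_le_sum fun z _ => hone ⟨J, z⟩).trans ?_
          rw [Finset.sum_const, Finset.card_univ, smul_eq_mul, Fintype.card_fun, hB,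
            Fintype.card_coe, ← pow_mul, mul_comm]
        exact Nat.le_of_mul_le_mul_right h1 (Nat.two_pow_pos _)
    _ = _ := by
        rw [Finset.sum_const, Finset.card_univ, Fintype.card_finset, smul_eq_mul]

/-- the rows of the second half on the pairs lie in a coset -/
lemma card_coset (D : Submodule (ZMod 2) (P → ZMod 2)) {F : Type}
    (ev : F → D) (hev : Function.Surjective ev) (c : F → Module.Dual (ZMod 2) C → ZMod 2) :
    cnt (fun w : P → C => ∀ (f : F) (y : Module.Dual (ZMod 2) C),
      ∑ b, (ev f : P → ZMod 2) b * y (w b) = c f y)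
      ≤ Fintype.card C ^ (Fintype.card P - finrank (ZMod 2) D) := by
  by_cases hne : ∃ w0 : P → C, ∀ (f : F) (y : Module.Dual (ZMod 2) C),
      ∑ b, (ev f : P → ZMod 2) b * y (w0 b) = c f y
  · obtain ⟨w0, hw0⟩ := hne
    rw [← card_rows (W := C) D]
    refine cnt_le_of_inj (fun w b => w b - w0 b) ?_ ?_
    · intro w hw y
      rw [mem_perp]
      intro g hg
      obtain ⟨f, hf⟩ := hev ⟨g, hg⟩
      have h1 := hw f y
      rw [← hw0 f y, hf] at h1
      simp only [map_sub, sub_mul, Finset.sum_sub_distrib]
      rw [sub_eq_zero]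
      simp only [mul_comm (y _)]
      exact h1
    · intro w w' _ _ h
      funext b
      have := congrFun h b
      exact sub_left_injective this
  · have : cnt (fun w : P → C => ∀ (f : F) (y : Module.Dual (ZMod 2) C),
      ∑ b, (ev f : P → ZMod 2) b * y (w b) = c f y) = 0 := by
      rw [cnt_eq, Finset.card_eq_zero, Finset.filter_eq_empty_iff]
      intro w _ hw
      exact hne ⟨w, hw⟩
    rw [this]
    exact Nat.zero_le _

/-- (case 1) the families of large rank -/
theorem count_high (t m1 m2 κ k τ : ℕ) (hB : Fintype.card B = 2 ^ m1)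
    (hC : Fintype.card C = 2 ^ m2) (d : P → A) (hτ : 8 * τ ≤ κ * k)
    (c : (A →ₗ[ZMod 2] ↥(PP B t)) → Module.Dual (ZMod 2) C → ZMod 2) :
    cnt (fun q : P → B × C =>
      κ * k ≤ 8 * finrank (ZMod 2) ↥(LinearMap.range (EV t d (fun b => (q b).1))) ∧
      ∀ (f : A →ₗ[ZMod 2] ↥(PP B t)) (y : Module.Dual (ZMod 2) C),
        ∑ b, EV t d (fun b => (q b).1) f b * y (q b).2 = c f y) * 2 ^ (m2 * τ)
      ≤ 2 ^ ((m1 + m2) * Fintype.card P) := by
  have hone : ∀ v : P → B, κ * k ≤ 8 * finrank (ZMod 2) ↥(LinearMap.range (EV t d v)) →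
      cnt (fun w : P → C => ∀ (f : A →ₗ[ZMod 2] ↥(PP B t)) (y : Module.Dual (ZMod 2) C),
        ∑ b, EV t d v f b * y (w b) = c f y) * 2 ^ (m2 * τ) ≤ 2 ^ (m2 * Fintype.card P) := by
    intro v hv
    set D := LinearMap.range (EV t d v) with hD
    have h1 := card_coset (C := C) D (fun f => (⟨EV t d v f, LinearMap.mem_range_self _ f⟩ : D))
      (fun g => by
        obtain ⟨f, hf⟩ := g.2
        exact ⟨f, Subtype.ext hf⟩) c
    have h2 : finrank (ZMod 2) D ≤ Fintype.card P := by
      rw [← finrank_fintype_fun_eq_card (ZMod 2) (η := P)]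
      exact Submodule.finrank_le D
    calc _ ≤ Fintype.card C ^ (Fintype.card P - finrank (ZMod 2) D) * 2 ^ (m2 * τ) :=
          Nat.mul_le_mul_right _ h1
      _ = 2 ^ (m2 * (Fintype.card P - finrank (ZMod 2) D) + m2 * τ) := by
          rw [hC, ← pow_mul, ← pow_add]
      _ ≤ 2 ^ (m2 * Fintype.card P) := by
          refine Nat.pow_le_pow_right (by norm_num) ?_
          rw [← mul_add]
          exact Nat.mul_le_mul_left _ (by omega)
  rw [cnt_eq]
  set S := Finset.univ.filter (fun q : P → B × C =>
      κ * k ≤ 8 * finrank (ZMod 2) ↥(LinearMap.range (EV t d (fun b => (q b).1))) ∧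
      ∀ (f : A →ₗ[ZMod 2] ↥(PP B t)) (y : Module.Dual (ZMod 2) C),
        ∑ b, EV t d (fun b => (q b).1) f b * y (q b).2 = c f y) with hS
  have h1 : S.card = ∑ v : P → B, (S.filter (fun q => (fun b => (q b).1) = v)).card :=
    Finset.card_eq_sum_card_fiberwise (fun q _ => Finset.mem_coe.2 (Finset.mem_univ _))
  rw [h1, Finset.sum_mul]
  have h2 : ∀ v : P → B, (S.filter (fun q => (fun b => (q b).1) = v)).card * 2 ^ (m2 * τ)
      ≤ 2 ^ (m2 * Fintype.card P) := by
    intro v
    by_cases hv : κ * k ≤ 8 * finrank (ZMod 2) ↥(LinearMap.range (EV t d v))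
    · refine le_trans (Nat.mul_le_mul_right _ ?_) (hone v hv)
      rw [cnt_eq]
      refine Finset.card_le_card_of_injOn (fun q b => (q b).2) ?_ ?_
      · intro q hq
        rw [Finset.mem_coe, Finset.mem_filter, hS, Finset.mem_filter] at hq
        rw [Finset.mem_coe, Finset.mem_filter]
        refine ⟨Finset.mem_univ _, fun f y => ?_⟩
        have h3 := hq.1.2.2 f y
        rw [hq.2] at h3
        exact h3
      · intro q hq q' hq' h
        rw [Finset.mem_coe, Finset.mem_filter] at hq hq'
        funext b
        refine Prod.ext ?_ (congrFun h b)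
        exact (congrFun hq.2 b).trans (congrFun hq'.2 b).symm
    · have : S.filter (fun q => (fun b => (q b).1) = v) = ∅ := by
        rw [Finset.filter_eq_empty_iff]
        intro q hq hqv
        rw [hS, Finset.mem_filter] at hq
        rw [hqv] at hq
        exact hv hq.2.1
      rw [this, Finset.card_empty, zero_mul]
      exact Nat.zero_le _
  refine (Finset.sum_le_sum fun v _ => h2 v).trans (le_of_eq ?_)
  rw [Finset.sum_const, Finset.card_univ, Fintype.card_fun, hB, smul_eq_mul, ← pow_mul, ← pow_add,
    add_mul]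

end cnt2

end RMH
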