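import Pool.Agent.RM7.S6b

/-!
# Structured families, part c: the count for a fixed subspace and a fixed pairing
-/

set_option autoImplicit false
set_option linter.unusedSectionVars false

open scoped BigOperators
open Classical Module

namespace RMH

lemma sum_split {n : ℕ} {M : Type} [AddCommMonoid M] (σ : Fin n → Fin n) (hσ : ∀ i, σ (σ i) = i)
    (g : Fin n → M) :
    ∑ i, g i = ∑ u : {i // σ i = i}, g u + ∑ b : {i // i < σ i}, (g b + g (σ b)) := by
  have e1 : ∑ u : {i // σ i = i}, g u = ∑ i ∈ Finset.univ.filter (fun i => σ i = i), g i := by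
    rw [Finset.sum_subtype (p := fun i => σ i = i)]
    intro i
    simp
  have e2 : ∑ b : {i // i < σ i}, (g b + g (σ b)) =
      ∑ i ∈ Finset.univ.filter (fun i => i < σ i), (g i + g (σ i)) := by
    rw [Finset.sum_subtype (s := Finset.univ.filter (fun i => i < σ i)) (p := fun i => i < σ i)]
    intro i
    simp
  have e3 : ∑ i ∈ Finset.univ.filter (fun i => σ i < i), g i =
      ∑ i ∈ Finset.univ.filter (fun i => i < σ i), g (σ i) := by
    refine Finset.sum_nbij' σ σ ?_ ?_ ?_ ?_ ?_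
    · intro i hi
      simp only [Finset.mem_filter, Finset.mem_univ, true_and] at hi ⊢
      rw [hσ i]
      exact hi
    · intro i hi
      simp only [Finset.mem_filter, Finset.mem_univ, true_and] at hi ⊢
      rw [hσ i]
      exact hi
    · intro i _
      exact hσ i
    · intro i _
      exact hσ i
    · intro i _
      rw [hσ i]
  rw [e1, e2, Finset.sum_add_distrib, ← e3]
  have e4 : ∑ i, g i = ∑ i ∈ Finset.univ.filter (fun i => σ i = i), g i +
      ∑ i ∈ Finset.univ.filter (fun i => ¬ σ i = i), g i :=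
    (Finset.sum_filter_add_sum_filter_not _ _ _).symm
  rw [e4]
  congr 1
  rw [← Finset.sum_union]
  · refine Finset.sum_congr ?_ fun _ _ => rfl
    ext i
    simp only [Finset.mem_filter, Finset.mem_univ, true_and, Finset.mem_union]
    constructor
    · intro h
      rcases lt_or_gt_of_ne h with h1 | h1
      · exact Or.inr h1
      · exact Or.inl h1
    · rintro (h | h)
      · exact ne_of_gt h
      · exact ne_of_lt h
  · rw [Finset.disjoint_left]
    intro i hi hi2
    simp only [Finset.mem_filter, Finset.mem_univ, true_and] at hi hi2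
    exact lt_asymm hi hi2

section rel

variable {A B C : Type} [AddCommGroup A] [Module (ZMod 2) A] [Fintype A]
  [AddCommGroup B] [Module (ZMod 2) B] [Fintype B] [AddCommGroup C] [Module (ZMod 2) C] [Fintype C]

/-- the functions linear in the first and third variable and of degree at most `t` in the second -/
lemma bil_mem (t : ℕ) (f : A →ₗ[ZMod 2] ↥(PP B t)) (y : Module.Dual (ZMod 2) C) :
    (fun z : A × (B × C) => (f z.1 : B → ZMod 2) z.2.1 * y z.2.2) ∈ PP (A × (B × C)) (t + 2) := by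
  set bA := Module.finBasis (ZMod 2) A with hbA
  have h1 : (fun z : A × (B × C) => (f z.1 : B → ZMod 2) z.2.1 * y z.2.2) =
      ∑ j, ((fun z : A × (B × C) => bA.repr z.1 j) * (fun z : A × (B × C) =>
        (f (bA j) : B → ZMod 2) z.2.1)) * (fun z : A × (B × C) => y z.2.2) := by
    funext z
    rw [Finset.sum_apply]
    simp only [Pi.mul_apply]
    rw [← Finset.sum_mul]
    congr 1
    conv_lhs => rw [← bA.sum_repr z.1]
    rw [map_sum, AddSubmonoidClass.coe_finsetSum, Finset.sum_apply]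
    refine Finset.sum_congr rfl fun j _ => ?_
    rw [map_smul]
    rfl
  rw [h1]
  refine Submodule.sum_mem _ fun j _ => ?_
  have e1 : (fun z : A × (B × C) => bA.repr z.1 j) ∈ PP (A × (B × C)) 1 := by
    rw [PP_one]
    exact dual_mem_Aff44 ((bA.coord j).comp (LinearMap.fst (ZMod 2) A (B × C)))
  have e2 : (fun z : A × (B × C) => (f (bA j) : B → ZMod 2) z.2.1) ∈ PP (A × (B × C)) t :=
    comp_mem_PP ((LinearMap.fst (ZMod 2) B C).comp (LinearMap.snd (ZMod 2) A (B × C)))
      (f (bA j)).2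
  have e3 : (fun z : A × (B × C) => y z.2.2) ∈ PP (A × (B × C)) 1 := by
    rw [PP_one]
    exact dual_mem_Aff44 (y.comp ((LinearMap.snd (ZMod 2) B C).comp
      (LinearMap.snd (ZMod 2) A (B × C))))
  have h2 := mul_mem_PP (mul_mem_PP e1 e2) e3
  have h3 : 1 + t + 1 = t + 2 := by ring
  rw [h3] at h2
  exact h2

lemma zmod2_eq_of_add {a b : ZMod 2} (h : a + b = 0) : b = a := by
  revert a b
  decide

/-- the admissible families for a pairing -/
def XS {n : ℕ} (t : ℕ) (σ : Fin n → Fin n) (κ k : ℕ) (x : Fin n → A × (B × C)) : Prop :=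
  Null (t + 2) x ∧ (∀ i, (x (σ i)).2 = (x i).2) ∧
    (∀ u u', σ u = u → σ u' = u' → (x u).2 = (x u').2 → u = u') ∧
    ∀ A' : Submodule (ZMod 2) A, κ * k ≤
      (Finset.univ.filter (fun i => σ i ≠ i ∧ (x i).1 + (x (σ i)).1 ∉ A')).card
        + κ * finrank (ZMod 2) A'

variable {n : ℕ}

lemma XS.pairs {t κ k : ℕ} {σ : Fin n → Fin n} (hσ : ∀ i, σ (σ i) = i)
    {x : Fin n → A × (B × C)} (hx : XS t σ κ k x) (A' : Submodule (ZMod 2) A) :
    κ * k ≤ 2 * (Finset.univ.filter (fun b : {i // i < σ i} =>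
      (x b).1 + (x (σ b)).1 ∉ A')).card + κ * finrank (ZMod 2) A' := by
  have h1 := hx.2.2.2 A'
  have h2 := sum_split σ hσ (fun i => if σ i ≠ i ∧ (x i).1 + (x (σ i)).1 ∉ A' then 1 else 0)
  rw [← Finset.card_filter] at h2
  rw [h2] at h1
  have h3 : ∑ u : {i // σ i = i},
      (if σ (u : Fin n) ≠ u ∧ (x u).1 + (x (σ u)).1 ∉ A' then 1 else 0) = 0 := by
    refine Finset.sum_eq_zero fun u _ => ?_
    rw [if_neg (fun h => h.1 u.2)]
  have h4 : ∑ b : {i // i < σ i},
      ((if σ (b : Fin n) ≠ b ∧ (x b).1 + (x (σ b)).1 ∉ A' then 1 else 0) +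
       (if σ (σ (b : Fin n)) ≠ σ b ∧ (x (σ b)).1 + (x (σ (σ b))).1 ∉ A' then 1 else 0)) =
      2 * (Finset.univ.filter (fun b : {i // i < σ i} =>
        (x b).1 + (x (σ b)).1 ∉ A')).card := by
    rw [Finset.card_filter, Finset.mul_sum]
    refine Finset.sum_congr rfl fun b _ => ?_
    have hb : σ (b : Fin n) ≠ b := ne_of_gt b.2
    rw [hσ, add_comm (x (σ (b : Fin n))).1]
    by_cases hc : (x b).1 + (x (σ b)).1 ∉ A'
    · rw [if_pos ⟨hb, hc⟩, if_pos ⟨hb.symm, hc⟩, if_pos hc, mul_one]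
    · rw [if_neg (fun h => hc h.2), if_neg (fun h => hc h.2), if_neg hc, mul_zero, add_zero]
  rw [h3, h4, zero_add] at h1
  exact h1

lemma XS.rel {t κ k : ℕ} {σ : Fin n → Fin n} (hσ : ∀ i, σ (σ i) = i)
    {x : Fin n → A × (B × C)} (hx : XS t σ κ k x) (f : A →ₗ[ZMod 2] ↥(PP B t))
    (y : Module.Dual (ZMod 2) C) :
    ∑ b : {i // i < σ i}, (f ((x b).1 + (x (σ b)).1) : B → ZMod 2) (x b).2.1 * y (x b).2.2 =
      ∑ u : {i // σ i = i}, (f (x u).1 : B → ZMod 2) (x u).2.1 * y (x u).2.2 := by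
  have h1 := hx.1 _ (bil_mem t f y)
  rw [sum_split σ hσ] at h1
  refine (zmod2_eq_of_add (a := ∑ u : {i // σ i = i},
    (f (x u).1 : B → ZMod 2) (x u).2.1 * y (x u).2.2) ?_)
  rw [← h1]
  congr 1
  refine Finset.sum_congr rfl fun b _ => ?_
  rw [hx.2.1 b, map_add, ← add_mul]
  rfl

lemma XS.null {t κ k : ℕ} {σ : Fin n → Fin n} (hσ : ∀ i, σ (σ i) = i)
    {x : Fin n → A × (B × C)} (hx : XS t σ κ k x) :
    Null (t + 2) (fun u : {i // σ i = i} => (x u).2) := by
  intro p hp
  have h1 := (hx.1.comp (LinearMap.snd (ZMod 2) A (B × C))) p hp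
  rw [sum_split σ hσ] at h1
  have h2 : ∑ b : {i // i < σ i}, (p ((LinearMap.snd (ZMod 2) A (B × C)) (x b)) +
      p ((LinearMap.snd (ZMod 2) A (B × C)) (x (σ b)))) = 0 := by
    refine Finset.sum_eq_zero fun b _ => ?_
    show p (x b).2 + p (x (σ b)).2 = 0
    rw [hx.2.1 b]
    exact RMC.zmod2_add_self _
  rw [h2, add_zero] at h1
  exact h1

/-- the count of the families of fixed first coordinates and fixed unpaired points -/
theorem fiber_count (t a m1 m2 κ k τ γ : ℕ) (hB : Fintype.card B = 2 ^ m1)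
    (hC : Fintype.card C = 2 ^ m2) (hκ : κ ≤ 4 * (a - t).choose t) (hτ : 8 * τ ≤ κ * k)
    (hγ1 : γ + a ≤ m1) (hγ2 : γ ≤ m2) (σ : Fin n → Fin n) (hσ : ∀ i, σ (σ i) = i)
    (h : Fin n → A) (g : {i // σ i = i} → B × C) :
    cnt (fun x : Fin n → A × (B × C) => XS t σ κ k x ∧ (fun i => (x i).1) = h ∧
      (fun u : {i // σ i = i} => (x u).2) = g) * 2 ^ (γ * τ)
      ≤ 2 ^ ((m1 + m2) * Fintype.card {i // i < σ i}) *
        2 ^ (Fintype.card {i // i < σ i} + 1) := by
  set P := {i // i < σ i} with hP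
  set p := Fintype.card P with hp
  by_cases hne : ∃ x : Fin n → A × (B × C), XS t σ κ k x ∧ (fun i => (x i).1) = h ∧
      (fun u : {i // σ i = i} => (x u).2) = g
  swap
  · have : cnt (fun x : Fin n → A × (B × C) => XS t σ κ k x ∧ (fun i => (x i).1) = h ∧
        (fun u : {i // σ i = i} => (x u).2) = g) = 0 := by
      rw [cnt_eq, Finset.card_eq_zero, Finset.filter_eq_empty_iff]
      intro w _ hw
      exact hne ⟨w, hw⟩
    rw [this, zero_mul]
    exact Nat.zero_le _
  obtain ⟨x0, hx0, hx0h, -⟩ := hne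
  set d : P → A := fun b => h b + h (σ b) with hd
  have hM : ∀ A' : Submodule (ZMod 2) A,
      κ * k ≤ 2 * (Finset.univ.filter (fun b : P => d b ∉ A')).card + κ * finrank (ZMod 2) A' := by
    intro A'
    have h1 := hx0.pairs hσ A'
    have h2 : ∀ i, (x0 i).1 = h i := fun i => congrFun hx0h i
    simp only [h2] at h1
    exact h1
  set c : (A →ₗ[ZMod 2] ↥(PP B t)) → Module.Dual (ZMod 2) C → ZMod 2 := fun f y =>
    ∑ u : {i // σ i = i}, (f (h u) : B → ZMod 2) (g u).1 * y (g u).2 with hc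
  have hlow := count_low (P := P) t a m1 κ k τ hB (by omega) hκ d hM hτ
  have hhigh := count_high (P := P) t m1 m2 κ k τ hB hC d hτ c
  -- the families of pairs of small rank
  have hlow2 : cnt (fun q : P → B × C =>
      8 * finrank (ZMod 2) ↥(LinearMap.range (EV t d (fun b => (q b).1))) < κ * k) * 2 ^ (γ * τ)
      ≤ 2 ^ p * 2 ^ ((m1 + m2) * p) := by
    have h1 : cnt (fun q : P → B × C =>
        8 * finrank (ZMod 2) ↥(LinearMap.range (EV t d (fun b => (q b).1))) < κ * k) ≤
        cnt (fun v : P → B => 8 * finrank (ZMod 2) ↥(LinearMap.range (EV t d v)) < κ * k)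
          * 2 ^ (m2 * p) := by
      have h2 : cnt (fun v : P → B =>
          8 * finrank (ZMod 2) ↥(LinearMap.range (EV t d v)) < κ * k) * 2 ^ (m2 * p) =
          Nat.card ({v : P → B // 8 * finrank (ZMod 2) ↥(LinearMap.range (EV t d v)) < κ * k} ×
            (P → C)) := by
        rw [Nat.card_prod, Nat.card_eq_fintype_card (α := P → C), Fintype.card_fun, hC, ← pow_mul]
        rfl
      rw [h2]
      refine Nat.card_le_card_of_injective (fun q => (⟨fun b => (q.1 b).1, q.2⟩,
        fun b => (q.1 b).2)) ?_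
      rintro ⟨q, hq⟩ ⟨q', hq'⟩ hqq
      simp only [Prod.mk.injEq, Subtype.mk.injEq] at hqq
      apply Subtype.ext
      funext b
      exact Prod.ext (congrFun hqq.1 b) (congrFun hqq.2 b)
    have h3 : 2 ^ (γ * τ) ≤ 2 ^ ((m1 - a) * τ) :=
      Nat.pow_le_pow_right (by norm_num) (Nat.mul_le_mul_right _ (by omega))
    calc _ ≤ (cnt (fun v : P → B =>
          8 * finrank (ZMod 2) ↥(LinearMap.range (EV t d v)) < κ * k) * 2 ^ (m2 * p))
          * 2 ^ ((m1 - a) * τ) := Nat.mul_le_mul h1 h3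
      _ = (cnt (fun v : P → B =>
          8 * finrank (ZMod 2) ↥(LinearMap.range (EV t d v)) < κ * k) * 2 ^ ((m1 - a) * τ))
          * 2 ^ (m2 * p) := by ring
      _ ≤ (2 ^ p * 2 ^ (m1 * p)) * 2 ^ (m2 * p) := Nat.mul_le_mul_right _ hlow
      _ = 2 ^ p * 2 ^ ((m1 + m2) * p) := by
          rw [add_mul, pow_add]
          ring
  have hhigh2 : cnt (fun q : P → B × C =>
      κ * k ≤ 8 * finrank (ZMod 2) ↥(LinearMap.range (EV t d (fun b => (q b).1))) ∧
      ∀ (f : A →ₗ[ZMod 2] ↥(PP B t)) (y : Module.Dual (ZMod 2) C),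
        ∑ b, EV t d (fun b => (q b).1) f b * y (q b).2 = c f y) * 2 ^ (γ * τ)
      ≤ 2 ^ ((m1 + m2) * p) :=
    le_trans (Nat.mul_le_mul_left _ (Nat.pow_le_pow_right (by norm_num)
      (Nat.mul_le_mul_right _ hγ2))) hhigh
  -- the fiber
  have hfib : cnt (fun x : Fin n → A × (B × C) => XS t σ κ k x ∧ (fun i => (x i).1) = h ∧
      (fun u : {i // σ i = i} => (x u).2) = g) ≤
      cnt (fun q : P → B × C =>
        8 * finrank (ZMod 2) ↥(LinearMap.range (EV t d (fun b => (q b).1))) < κ * k) +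
      cnt (fun q : P → B × C =>
        κ * k ≤ 8 * finrank (ZMod 2) ↥(LinearMap.range (EV t d (fun b => (q b).1))) ∧
        ∀ (f : A →ₗ[ZMod 2] ↥(PP B t)) (y : Module.Dual (ZMod 2) C),
          ∑ b, EV t d (fun b => (q b).1) f b * y (q b).2 = c f y) := by
    rw [cnt_eq, cnt_eq, cnt_eq, ← Finset.card_union_of_disjoint]
    · refine Finset.card_le_card_of_injOn (fun x (b : P) => (x b).2) ?_ ?_
      · intro x hx
        obtain ⟨-, hx1, hxh, hxg⟩ := Finset.mem_filter.1 (Finset.mem_coe.1 hx)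
        rw [Finset.mem_coe, Finset.mem_union, Finset.mem_filter, Finset.mem_filter]
        by_cases hr : 8 * finrank (ZMod 2) ↥(LinearMap.range (EV t d (fun b : P => (x b).2.1)))
            < κ * k
        · exact Or.inl ⟨Finset.mem_univ _, hr⟩
        · refine Or.inr ⟨Finset.mem_univ _, not_lt.1 hr, fun f y => ?_⟩
          have h1 := hx1.rel hσ f y
          have h2 : ∀ i, (x i).1 = h i := fun i => congrFun hxh i
          have h3 : ∀ u : {i // σ i = i}, (x u).2 = g u := fun u => congrFun hxg u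
          simp only [h2, h3] at h1
          exact h1
      · intro x hx x' hx' hxx
        obtain ⟨-, hx1, hxh, hxg⟩ := Finset.mem_filter.1 (Finset.mem_coe.1 hx)
        obtain ⟨-, hx1', hxh', hxg'⟩ := Finset.mem_filter.1 (Finset.mem_coe.1 hx')
        funext i
        refine Prod.ext ((congrFun hxh i).trans (congrFun hxh' i).symm) ?_
        rcases lt_trichotomy i (σ i) with hi | hi | hi
        · exact congrFun hxx ⟨i, hi⟩
        · exact (congrFun hxg ⟨i, hi.symm⟩).trans (congrFun hxg' ⟨i, hi.symm⟩).symm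
        · have h1 : σ i < σ (σ i) := by rw [hσ]; exact hi
          have h2 : (x (σ i)).2 = (x' (σ i)).2 := congrFun hxx ⟨σ i, h1⟩
          rw [← hx1.2.1 i, ← hx1'.2.1 i]
          exact h2
    · rw [Finset.disjoint_left]
      intro q hq hq2
      have h1 := (Finset.mem_filter.1 hq).2
      have h2 := (Finset.mem_filter.1 hq2).2.1
      omega
  calc _ ≤ (_ + _) * 2 ^ (γ * τ) := Nat.mul_le_mul_right _ hfib
    _ ≤ 2 ^ p * 2 ^ ((m1 + m2) * p) + 2 ^ ((m1 + m2) * p) := by
        rw [add_mul]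
        exact Nat.add_le_add hlow2 hhigh2
    _ = 2 ^ ((m1 + m2) * p) * (2 ^ p + 1) := by ring
    _ ≤ 2 ^ ((m1 + m2) * p) * 2 ^ (p + 1) := by
        refine Nat.mul_le_mul_left _ ?_
        rw [pow_succ]
        have := Nat.one_le_two_pow (n := p)
        omega

end rel

end RMH
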