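import Pool.Agent.RM7.S6d

/-!
# Structured families, part e: the number of structured families
-/

set_option autoImplicit false
set_option linter.unusedSectionVars false

open scoped BigOperators
open Classical Module

namespace RMH

/-- (S6) the number of structured injective null families -/
theorem str_count (t a κ m n L G : ℕ) (V : Type) [AddCommGroup V] [Module (ZMod 2) V] [Fintype V]
    (hV : Fintype.card V = 2 ^ m) (h1 : κ ≤ 4 * (a - t).choose t) (h2 : n ≤ 2 ^ L)
    (h3 : 8 * n ≤ κ * m) (h4 : 24 * a ≤ m) (hm24 : 24 ≤ m)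
    (h5 : 32 * (m + 3 * n + n * L + G + 2) ≤ m * κ)
    (hind : ∀ e k : ℕ, 1 ≤ k → e + κ * k < n →
      (NI (t + 2) e (m - k) : ℝ) ≤ P2 (((m - k : ℕ) : ℝ) * e / 2)) :
    (cnt (fun x : Fin n → V => Function.Injective x ∧ Null (t + 2) x ∧ Str κ x) : ℝ)
      ≤ P2 (m * n / 2 - G) := by
  have hκ32 : 32 ≤ κ := by
    by_contra hcon
    push Not at hcon
    have : m * κ < m * 32 := Nat.mul_lt_mul_of_pos_left hcon (by omega)
    omega
  -- the union
  set I := (k : Fin (n + 1)) × ((Fin k → V) × (Fin n → Fin n)) with hI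
  set P : I → (Fin n → V) → Prop := fun q x =>
    1 ≤ (q.1 : ℕ) ∧ κ * (q.1 : ℕ) < n ∧ ZS t κ q.2.1 q.2.2 x with hP
  have hcov : cnt (fun x : Fin n → V => Function.Injective x ∧ Null (t + 2) x ∧ Str κ x) ≤
      ∑ q : I, cnt (P q) := by
    refine le_trans (cnt_mono fun x hx => ?_) (cnt_exists P)
    obtain ⟨k, hk1, hk2, b, σ, hz⟩ := exists_ZS hx.1 hx.2.1 hx.2.2
    have hkn : k ≤ κ * k := Nat.le_mul_of_pos_left _ (by omega)
    exact ⟨⟨⟨k, by omega⟩, (b, σ)⟩, hk1, hk2, hz⟩
  have hcov2 : (cnt (fun x : Fin n → V => Function.Injective x ∧ Null (t + 2) x ∧ Str κ x) : ℝ) ≤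
      ∑ k : Fin (n + 1), ∑ q : (Fin k → V) × (Fin n → Fin n), (cnt (P ⟨k, q⟩) : ℝ) := by
    have h6 : ((cnt (fun x : Fin n → V => Function.Injective x ∧ Null (t + 2) x ∧ Str κ x) : ℕ) : ℝ)
        ≤ ((∑ q : I, cnt (P q) : ℕ) : ℝ) := by exact_mod_cast hcov
    refine h6.trans (le_of_eq ?_)
    rw [Nat.cast_sum, Fintype.sum_sigma]
  refine hcov2.trans ?_
  -- each `k`
  have hk : ∀ k : Fin (n + 1), ∑ q : (Fin k → V) × (Fin n → Fin n), (cnt (P ⟨k, q⟩) : ℝ) ≤
      if (k : ℕ) = 0 then 0 else P2 (m * n / 2 - G - n) := by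
    intro k
    by_cases hk0 : 1 ≤ (k : ℕ) ∧ κ * (k : ℕ) < n
    swap
    · have h6 : ∀ q : (Fin k → V) × (Fin n → Fin n), (cnt (P ⟨k, q⟩) : ℝ) = 0 := by
        intro q
        have : cnt (P ⟨k, q⟩) = 0 := by
          rw [cnt_eq, Finset.card_eq_zero, Finset.filter_eq_empty_iff]
          intro w _ hw
          exact hk0 ⟨hw.1, hw.2.1⟩
        rw [this, Nat.cast_zero]
      rw [Finset.sum_eq_zero fun q _ => h6 q]
      split_ifs
      · exact le_rfl
      · exact (P2_pos _).le
    obtain ⟨hk1, hk2⟩ := hk0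
    rw [if_neg (by omega)]
    have hk8 : 8 * (k : ℕ) < m := by
      by_contra hcon
      push Not at hcon
      have h6 : κ * m ≤ κ * (8 * (k : ℕ)) := Nat.mul_le_mul_left _ hcon
      have h7 : κ * (8 * (k : ℕ)) = 8 * (κ * (k : ℕ)) := by ring
      omega
    set K : ℕ := (k : ℕ) with hK
    set m2 := (m - K) / 2 with hm2
    set m1 := m - K - m2 with hm1
    set τ := κ * K / 8 with hτ
    set γ := m2 - a with hγ
    have e1 : K + m1 + m2 = m := by omega
    have e2 : m1 + m2 = m - K := by omega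
    have e3 : γ + a ≤ m1 := by omega
    have e4 : γ ≤ m2 := by omega
    have e5 : 8 * τ ≤ κ * K := by omega
    have hone : ∀ q : (Fin k → V) × (Fin n → Fin n), (cnt (P ⟨k, q⟩) : ℝ) ≤
        P2 (K * n + (m1 + m2) * n / 2 + n / 2 + 1 - γ * τ) := by
      intro q
      have h6 := zs_count (V := V) (n := n) t a m m1 m2 κ K τ γ hV e1 h1 e5 e3 e4 q.1 q.2 (by
        intro e he
        have h7 := hind e K hk1 he
        rw [← e2] at h7
        push_cast at h7
        exact h7)
      refine le_trans ?_ h6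
      have h8 : cnt (P ⟨k, q⟩) ≤ cnt (fun x : Fin n → V => ZS t κ q.1 q.2 x) :=
        cnt_mono fun x hx => hx.2.2
      exact_mod_cast h8
    have hnum : ((Fintype.card ((Fin k → V) × (Fin n → Fin n)) : ℕ) : ℝ) ≤ P2 (m * K + n * L) := by
      have h6 : Fintype.card ((Fin k → V) × (Fin n → Fin n)) ≤ 2 ^ (m * K + n * L) := by
        rw [Fintype.card_prod, Fintype.card_fun, Fintype.card_fun, Fintype.card_fin,
          Fintype.card_fin, hV, ← pow_mul, pow_add]
        refine Nat.mul_le_mul_left _ ?_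
        calc n ^ n ≤ (2 ^ L) ^ n := Nat.pow_le_pow_left h2 n
          _ = 2 ^ (n * L) := by rw [← pow_mul, mul_comm]
      have h7 : ((Fintype.card ((Fin k → V) × (Fin n → Fin n)) : ℕ) : ℝ) ≤
          ((2 ^ (m * K + n * L) : ℕ) : ℝ) := by exact_mod_cast h6
      refine h7.trans (le_of_eq ?_)
      rw [Nat.cast_pow, Nat.cast_ofNat, P2_nat]
      push_cast
      rfl
    calc ∑ q : (Fin k → V) × (Fin n → Fin n), (cnt (P ⟨k, q⟩) : ℝ)
        ≤ ∑ _q : (Fin k → V) × (Fin n → Fin n),
          P2 (K * n + (m1 + m2) * n / 2 + n / 2 + 1 - γ * τ) := Finset.sum_le_sum fun q _ => hone q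
      _ = (Fintype.card ((Fin k → V) × (Fin n → Fin n)) : ℝ) *
          P2 (K * n + (m1 + m2) * n / 2 + n / 2 + 1 - γ * τ) := by
          rw [Finset.sum_const, Finset.card_univ, nsmul_eq_mul]
      _ ≤ P2 (m * K + n * L) * P2 (K * n + (m1 + m2) * n / 2 + n / 2 + 1 - γ * τ) :=
          mul_le_mul_of_nonneg_right hnum (P2_pos _).le
      _ ≤ P2 (m * n / 2 - G - n) := by
          rw [← P2_add]
          apply P2_mono
          -- real inequality
          have r1 : ((m1 : ℝ) + m2) = m - K := by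
            have h6 : ((K + m1 + m2 : ℕ) : ℝ) = m := by exact_mod_cast e1
            push_cast at h6
            linarith
          have r2 : (m : ℝ) - K - 1 ≤ 2 * m2 := by
            have h6 : m ≤ K + 1 + 2 * m2 := by omega
            have h7 : (m : ℝ) ≤ ((K + 1 + 2 * m2 : ℕ) : ℝ) := by exact_mod_cast h6
            push_cast at h7
            linarith
          have r3 : (m2 : ℝ) = γ + a := by
            have h6 : m2 = γ + a := by omega
            exact_mod_cast h6
          have r4 : (8 : ℝ) * K ≤ m := by exact_mod_cast hk8.le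
          have r5 : (24 : ℝ) * a ≤ m := by exact_mod_cast h4
          have r6 : (24 : ℝ) ≤ m := by exact_mod_cast hm24
          have r7 : (κ : ℝ) * K ≤ 8 * τ + 7 := by
            have h6 : κ * K ≤ 8 * τ + 7 := by omega
            exact_mod_cast h6
          have r8 : (32 : ℝ) ≤ κ := by exact_mod_cast hκ32
          have r9 : (1 : ℝ) ≤ K := by exact_mod_cast hk1
          have r10 : (32 : ℝ) * (m + 3 * n + n * L + G + 2) ≤ m * κ := by exact_mod_cast h5
          have r11 : (0 : ℝ) ≤ n := Nat.cast_nonneg _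
          have r12 : (0 : ℝ) ≤ L := Nat.cast_nonneg _
          have r13 : (0 : ℝ) ≤ G := Nat.cast_nonneg _
          have s1 : (3 / 8 : ℝ) * m ≤ γ := by linarith
          have s2 : (32 : ℝ) ≤ κ * K := by nlinarith
          have s3 : (25 / 256 : ℝ) * (κ * K) ≤ τ := by linarith
          have s4 : (3 / 8 : ℝ) * m * ((25 / 256 : ℝ) * (κ * K)) ≤ γ * τ :=
            mul_le_mul s1 s3 (by positivity) (by linarith)
          have s5 : (K : ℝ) * (m + 3 * n + n * L + G + 2) ≤ K * (m * κ / 32) :=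
            mul_le_mul_of_nonneg_left (by linarith) (by linarith)
          have s6 : (K : ℝ) * (m * κ / 32) ≤ (3 / 8 : ℝ) * m * ((25 / 256 : ℝ) * (κ * K)) := by
            have h6 : (0 : ℝ) ≤ m * κ * K := by positivity
            nlinarith
          have s7 : (m : ℝ) * K + (2 * n * K + n + n * L) + G + 2 ≤
              (K : ℝ) * (m + 3 * n + n * L + G + 2) := by
            have h6 : 0 ≤ ((K : ℝ) - 1) * (n + n * L + G + 2) :=
              mul_nonneg (by linarith) (by positivity)
            nlinarith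
          rw [r1]
          have s8 : (n : ℝ) ≤ n * K := by nlinarith
          nlinarith
  refine (Finset.sum_le_sum fun k _ => hk k).trans ?_
  rw [Fin.sum_univ_succ]
  simp only [Fin.val_zero, if_true, Fin.val_succ, Nat.succ_ne_zero, if_false, zero_add,
    Finset.sum_const, Finset.card_univ, Fintype.card_fin, nsmul_eq_mul]
  have h6 : (n : ℝ) ≤ P2 n := by
    have h7 : (n : ℝ) ≤ ((2 ^ n : ℕ) : ℝ) := by exact_mod_cast Nat.lt_two_pow_self.le
    rw [Nat.cast_pow, Nat.cast_ofNat, P2_nat] at h7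
    exact h7
  calc (n : ℝ) * P2 (m * n / 2 - G - n) ≤ P2 n * P2 (m * n / 2 - G - n) :=
        mul_le_mul_of_nonneg_right h6 (P2_pos _).le
    _ = P2 (m * n / 2 - G) := by
        rw [← P2_add]
        congr 1
        ring

end RMH
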