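import Pool.Agent.RM7.S6d

/-!
# Structured families: parity
-/

set_option autoImplicit false
set_option linter.unusedSectionVars false

open scoped BigOperators
open Classical Module

namespace RMH

/-- a null family has an even number of members -/
lemma Null.even {ι V : Type} [Fintype ι] [AddCommGroup V] [Module (ZMod 2) V] {r : ℕ} {x : ι → V}
    (h : Null r x) : Even (Fintype.card ι) := by
  have h1 := h 1 (one_mem_PP r)
  simp only [Pi.one_apply, Finset.sum_const, Finset.card_univ, nsmul_eq_mul, mul_one] at h1
  exact (ZMod.natCast_eq_zero_iff_even).1 h1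

/-- there are no null families with an odd number of members -/
lemma NI_odd {r e m : ℕ} (he : ¬ Even e) : NI r e m = 0 := by
  unfold NI
  rw [cnt_eq, Finset.card_eq_zero, Finset.filter_eq_empty_iff]
  rintro x - ⟨-, hx⟩
  have := hx.even
  rw [Fintype.card_fin] at this
  exact he this

/-- the empty family -/
lemma NI_zero_le {r m : ℕ} : NI r 0 m ≤ 1 := by
  unfold NI
  rw [cnt_eq]
  refine (Finset.card_le_univ _).trans (le_of_eq ?_)
  simp

end RMH
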